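import Pool.Agent.T2H96.XP.Defs
import Pool.Agent.T2H96.XS.Bor
import Pool.Agent.T2H96.XS.Jac

/-!
PACKAGE GK (30-50 min). The implicit function theorem with several parameters: nondegenerate solutions of
exponential systems are locally graphs of analytic functions.

Copy `Pool.Agent.T2H96.XS.ift_n` (file XS/Jac.lean; there the parameter space is `ℂ`, here `Pt m`; `slice_hasFDerivAt`, `pJ_eq`
and `inv_of_det` there are also useful). For `goodK_sys` combine it with the open conditions `δ ≠ 0`, `Λ ≠ 0` and 'Jacobian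
determinant ≠ 0' (continuous: `Jd_analytic` in XS/Jac.lean for one parameter, `det_continuous` in XS/Bor.lean for all
parameter spaces).
-/

set_option autoImplicit false

namespace Pool.Agent.T2H96.XP

open Set Filter Topology Metric
open Pool.Agent.T2H96.XS

theorem ift_m {m n : ℕ} {G : Pt m → Pt n → Pt n}
    (hG : AnalyticOnNhd ℂ (fun p : Pt m × Pt n => G p.1 p.2) univ) {y : Pt m} {x : Pt n}
    (h0 : G y x = 0) (hd : (pJ (G y) x).det ≠ 0) :
    ∃ φ : Pt m → Pt n, AnalyticAt ℂ φ y ∧ φ y = x ∧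
      ∀ᶠ q : Pt m × Pt n in 𝓝 (y, x), (G q.1 q.2 = 0 ↔ q.2 = φ q.1) := by
  set g : Pt m × Pt n → Pt n := fun p => G p.1 p.2 with hg
  have han : AnalyticAt ℂ g (y, x) := hG (y, x) (mem_univ _)
  have hcd : ContDiffAt ℂ ⊤ g (y, x) := han.contDiffAt
  have hinv : (fderiv ℂ g (y, x) ∘L .inr ℂ (Pt m) (Pt n)).IsInvertible := by
    apply inv_of_det
    intro hdet
    apply hd
    rw [← hdet]
    congr 1
    ext i j
    have h1 : HasFDerivAt g (fderiv ℂ g (y, x)) (y, x) := han.differentiableAt.hasFDerivAt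
    have h2 : HasFDerivAt (G y) (fderiv ℂ g (y, x) ∘L .inr ℂ (Pt m) (Pt n)) x :=
      h1.comp x (hasFDerivAt_prodMk_right y x)
    unfold pJ
    rw [Matrix.of_apply, Matrix.of_apply, h2.fderiv]
  refine ⟨hcd.implicitFunction (by simp) hinv,
    (hcd.contDiffAt_implicitFunction (by simp) hinv).analyticAt,
    hcd.implicitFunction_apply_self (by simp) hinv, ?_⟩
  filter_upwards [hcd.eventually_apply_eq_iff_implicitFunction (by simp) hinv] with q hq
  have e : g (y, x) = 0 := h0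
  rw [e] at hq
  show g q = 0 ↔ _
  rw [hq]
  exact eq_comm

theorem goodK_sys {m n : ℕ} {δ : Pt m → ℂ} {G E : Pt m → Pt n → Pt n} {Λ : Pt m → Pt n → ℂ}
    (h : ExpSys δ G E Λ) {y : Pt m} {x : Pt n} (hx : IsSol δ G Λ y x) :
    GoodK (fun q : Pt m × Pt n => IsSol δ G Λ q.1 q.2) (y, x) := by
  obtain ⟨hδ, h0, hdet, hΛ⟩ := hx
  obtain ⟨φ, hφ, hφx, hev⟩ := ift_m h.an_G h0 hdet
  refine ⟨φ, hφ, hφx, ?_⟩
  have hδc : Continuous δ := continuousOn_univ.1 h.an_d.continuousOn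
  have hΛc : Continuous (fun p : Pt m × Pt n => Λ p.1 p.2) :=
    continuousOn_univ.1 h.an_L.continuousOn
  have hdc : Continuous (fun p : Pt m × Pt n => (pJ (G p.1) p.2).det) :=
    det_continuous (g := fun p : Pt m × Pt n => G p.1 p.2) h.an_G
  have e1 : ∀ᶠ q : Pt m × Pt n in 𝓝 (y, x), δ q.1 ≠ 0 :=
    (hδc.comp continuous_fst).continuousAt.eventually_ne hδ
  have e2 : ∀ᶠ q : Pt m × Pt n in 𝓝 (y, x), (pJ (G q.1) q.2).det ≠ 0 :=
    hdc.continuousAt.eventually_ne hdet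
  have e3 : ∀ᶠ q : Pt m × Pt n in 𝓝 (y, x), Λ q.1 q.2 ≠ 0 :=
    hΛc.continuousAt.eventually_ne hΛ
  filter_upwards [hev, e1, e2, e3] with q q1 q2 q3 q4
  constructor
  · rintro ⟨-, h, -⟩
    exact q1.1 h
  · intro h
    exact ⟨q2, q1.2 h, q3, q4⟩

end Pool.Agent.T2H96.XP
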