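import Pool.Agent.T2H96.XP.Defs

/-!
Simple zeros of functions of finite order are guards, and they are locally graphs of analytic
functions of the parameters.
-/

set_option autoImplicit false

namespace Pool.Agent.T2H96.XP

open Set Filter Topology Metric
open scoped Cardinal
open Pool.Agent.TH735.QM Pool.Agent.TH735.FO Pool.Agent.T2H96.XS Pool.Agent.T2H96.XE

/-- implicit function theorem: parameters in a Banach space, one unknown -/
theorem ift_ban {E : Type} [NormedAddCommGroup E] [NormedSpace ℂ E] [CompleteSpace E]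
    {g : E × ℂ → ℂ} {p : E × ℂ} (hg : AnalyticAt ℂ g p) (h0 : g p = 0)
    (h1 : fderiv ℂ g p (0, 1) ≠ 0) :
    ∃ φ : E → ℂ, AnalyticAt ℂ φ p.1 ∧ φ p.1 = p.2 ∧
      ∀ᶠ q : E × ℂ in 𝓝 p, (g q = 0 ↔ q.2 = φ q.1) := by
  have hcd : ContDiffAt ℂ ⊤ g p := hg.contDiffAt
  have hinv : (fderiv ℂ g p ∘L .inr ℂ E ℂ).IsInvertible := by
    refine ⟨ContinuousLinearEquiv.unitsEquivAut ℂ (Units.mk0 _ h1), ?_⟩
    apply ContinuousLinearMap.ext_ring
    simp
  refine ⟨hcd.implicitFunction (by simp) hinv,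
    (hcd.contDiffAt_implicitFunction (by simp) hinv).analyticAt,
    hcd.implicitFunction_apply_self (by simp) hinv, ?_⟩
  filter_upwards [hcd.eventually_apply_eq_iff_implicitFunction (by simp) hinv] with q hq
  rw [h0] at hq
  rw [hq]
  exact eq_comm

theorem fderiv_slice {E : Type} [NormedAddCommGroup E] [NormedSpace ℂ E]
    {g : E × ℂ → ℂ} {y : E} {x : ℂ} (hg : AnalyticAt ℂ g (y, x)) :
    deriv (fun t => g (y, t)) x = fderiv ℂ g (y, x) (0, 1) := by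
  have h1 : HasFDerivAt g (fderiv ℂ g (y, x)) (y, x) := hg.differentiableAt.hasFDerivAt
  have h2 : HasDerivAt (fun t : ℂ => ((y, t) : E × ℂ)) (0, 1) x :=
    (hasDerivAt_const x y).prodMk (hasDerivAt_id x)
  exact (h1.comp_hasDerivAt x h2).deriv

/-- the derivative in the unknown is analytic in all variables -/
theorem der_an {m : ℕ} {F : Pt m → ℂ → ℂ}
    (hF : AnalyticOnNhd ℂ (fun p : (Fin m → ℂ) × ℂ => F p.1 p.2) Set.univ) :
    AnalyticOnNhd ℂ (fun p : Pt m × ℂ => deriv (F p.1) p.2) Set.univ := by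
  have e : (fun p : Pt m × ℂ => deriv (F p.1) p.2) =
      fun p => fderiv ℂ (fun p : Pt m × ℂ => F p.1 p.2) p (0, 1) := by
    funext p
    exact fderiv_slice (g := fun p : Pt m × ℂ => F p.1 p.2) (hF (p.1, p.2) (mem_univ _))
  rw [e]
  intro p hp
  have h2 : AnalyticAt ℂ (fun p => fderiv ℂ (fun p : Pt m × ℂ => F p.1 p.2) p) p :=
    (hF.fderiv) p hp
  exact ((ContinuousLinearMap.apply ℂ ℂ ((0, 1) : Pt m × ℂ)).analyticAt _).comp h2

theorem IsSimple.isZero {m : ℕ} {F : Pt m → ℂ → ℂ} {y : Pt m} {x : ℂ} (h : IsSimple F y x) :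
    IsZero F y x := by
  refine ⟨?_, h.1⟩
  by_contra hne
  push Not at hne
  apply h.2
  have : F y = fun _ => 0 := funext hne
  rw [this]
  simp

theorem isSimple_iff {m : ℕ} {F : Pt m → ℂ → ℂ} {y : Pt m} {x : ℂ} :
    IsSimple F y x ↔ IsZero F y x ∧ deriv (F y) x ≠ 0 :=
  ⟨fun h => ⟨h.isZero, h.2⟩, fun h => ⟨h.1.2, h.2⟩⟩

theorem comp_an1 {m : ℕ} {H : Pt m × ℂ → ℂ} (hH : AnalyticOnNhd ℂ H Set.univ) {U : Set ℂ}
    {γ : ℂ → Pt m} (hγ : AnalyticOnNhd ℂ γ U) :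
    AnalyticOnNhd ℂ (fun p : ℂ × ℂ => H (γ p.1, p.2)) (U ×ˢ Set.univ) := by
  rintro ⟨t, x⟩ ⟨ht, -⟩
  have h1 : AnalyticAt ℂ (fun p : ℂ × ℂ => (γ p.1, p.2)) (t, x) :=
    ((hγ t ht).comp (f := fun p : ℂ × ℂ => p.1) (x := (t, x)) analyticAt_fst).prod
      analyticAt_snd
  exact (hH (γ t, x) (mem_univ _)).comp (f := fun p : ℂ × ℂ => (γ p.1, p.2))
    (x := (t, x)) h1

theorem comp_an2 {m : ℕ} {H : Pt m × ℂ → ℂ} (hH : AnalyticOnNhd ℂ H Set.univ) {U : Set ℂ}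
    {γ : ℂ → Pt m} (hγ : AnalyticOnNhd ℂ γ U) {z : ℂ → ℂ} (hz : AnalyticOnNhd ℂ z U) :
    AnalyticOnNhd ℂ (fun t => H (γ t, z t)) U := by
  intro t ht
  exact (hH (γ t, z t) (mem_univ _)).comp (f := fun t => (γ t, z t)) (x := t)
    ((hγ t ht).prod (hz t ht))

theorem grd_simple {m : ℕ} {F : Pt m → ℂ → ℂ}
    (hF : AnalyticOnNhd ℂ (fun p : (Fin m → ℂ) × ℂ => F p.1 p.2) Set.univ)
    (hord : FiniteOrder F) : Grd (fun (y : Pt m) (x : Pt 1) => IsSimple F y (x 0)) where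
  ctb := by
    intro y
    exact ((grd_order hF hord).ctb y).mono fun x hx => IsSimple.isZero hx
  good := by
    intro U hU hUc γ hγ
    refine ⟨∅, countable_empty, ?_⟩
    intro t ht _ x hx
    set f : ℂ × ℂ → ℂ := fun p => F (γ p.1) p.2 with hf
    have hfan : AnalyticOnNhd ℂ f (U ×ˢ Set.univ) := comp_an1 hF hγ
    have hfat : AnalyticAt ℂ f (t, x 0) := hfan (t, x 0) ⟨ht, mem_univ _⟩
    have hd : fderiv ℂ f (t, x 0) (0, 1) ≠ 0 := by
      rw [← fderiv_slice hfat]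
      exact hx.2
    obtain ⟨φ, hφ, hφx, hev⟩ := ift hfat hx.1 hd
    refine ⟨fun s => one1 (φ s), analyticAt_pi_iff.2 fun _ => hφ, ?_, ?_⟩
    · show one1 (φ t) = x
      have : φ t = x 0 := hφx
      rw [this, one1_zero]
    · have e1 : ∀ᶠ q : ℂ × ℂ in 𝓝 (t, x 0), deriv (F (γ q.1)) q.2 ≠ 0 :=
        ((comp_an1 (der_an hF) hγ) (t, x 0) ⟨ht, mem_univ _⟩).continuousAt.eventually_ne hx.2
      filter_upwards [tendsto_one1.eventually hev, tendsto_one1.eventually e1] with q q1 q2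
      constructor
      · intro h2
        have h3 : q.2 0 = φ q.1 := q1.1 h2.1
        rw [← h3, one1_zero]
      · intro h2
        have h3 : q.2 0 = φ q.1 := by rw [h2]; rfl
        exact ⟨q1.2 h3, q2⟩
  cnt := by
    intro U hU hUc γ hγ Y hY
    have hY1 : LQN U (fun t z => Y t z ∧ deriv (F (γ t)) (z 0) ≠ 0) := by
      intro W hW hWo hWc z hz
      have hz0 : AnalyticOnNhd ℂ (fun t => z t 0) W := fun t ht =>
        (analyticAt_pi_iff.1 (hz t ht)) 0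
      exact (hY W hW hWo hWc z hz).inter
        (ne_QmOn hWc (comp_an2 (der_an hF) (hγ.mono hW) hz0))
    refine ((grd_order hF hord).cnt U hU hUc γ hγ _ hY1).congr' ?_
    intro t _
    simp only [Set.mem_ofPred_eq]
    constructor
    · rintro ⟨x, h1, h2, h3⟩
      exact ⟨x, isSimple_iff.2 ⟨h1, h3⟩, h2⟩
    · rintro ⟨x, h1, h2⟩
      exact ⟨x, (isSimple_iff.1 h1).1, h2, (isSimple_iff.1 h1).2⟩
  cur := by
    intro U hU hUc γ hγ z hz
    have hz0 : AnalyticOnNhd ℂ (fun t => z t 0) U := fun t ht => (analyticAt_pi_iff.1 (hz t ht)) 0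
    exact (zeros_QmOn hUc (comp_an2 hF hγ hz0)).inter
      (ne_QmOn hUc (comp_an2 (der_an hF) hγ hz0))

theorem goodK_simple {m : ℕ} {F : Pt m → ℂ → ℂ}
    (hF : AnalyticOnNhd ℂ (fun p : (Fin m → ℂ) × ℂ => F p.1 p.2) Set.univ) {y : Pt m} {x : Pt 1}
    (hx : IsSimple F y (x 0)) :
    GoodK (fun q : Pt m × Pt 1 => IsSimple F q.1 (q.2 0)) (y, x) := by
  have hfat : AnalyticAt ℂ (fun p : Pt m × ℂ => F p.1 p.2) (y, x 0) := hF (y, x 0) (mem_univ _)
  have hd : fderiv ℂ (fun p : Pt m × ℂ => F p.1 p.2) (y, x 0) (0, 1) ≠ 0 := by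
    rw [← fderiv_slice hfat]
    exact hx.2
  obtain ⟨φ, hφ, hφx, hev⟩ := ift_ban hfat hx.1 hd
  have htd : Tendsto (fun q : Pt m × Pt 1 => (q.1, q.2 0)) (𝓝 (y, x)) (𝓝 (y, x 0)) := by
    have : Continuous fun q : Pt m × Pt 1 => (q.1, q.2 0) := by fun_prop
    exact this.continuousAt
  refine ⟨fun s => one1 (φ s), analyticAt_pi_iff.2 fun _ => hφ, ?_, ?_⟩
  · show one1 (φ y) = x
    have : φ y = x 0 := hφx
    rw [this, one1_zero]
  · have e1 : ∀ᶠ q : Pt m × ℂ in 𝓝 (y, x 0), deriv (F q.1) q.2 ≠ 0 :=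
      ((der_an hF) (y, x 0) (mem_univ _)).continuousAt.eventually_ne hx.2
    filter_upwards [htd.eventually hev, htd.eventually e1] with q q1 q2
    constructor
    · intro h2
      have h3 : q.2 0 = φ q.1 := q1.1 h2.1
      rw [← h3, one1_zero]
    · intro h2
      have h3 : q.2 0 = φ q.1 := by rw [h2]; rfl
      exact ⟨q1.2 h3, q2⟩

end Pool.Agent.T2H96.XP
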