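import Pool.Agent.T2H96.XP.EngineK

/-!
Any bijection between countable generic sets extends to an isomorphism of the closures.
-/

set_option autoImplicit false

namespace Pool.Agent.T2H96.XP

open Set Filter Topology Metric
open scoped Cardinal
open Pool.Agent.TH735.QM Pool.Agent.TH735.FO Pool.Agent.TH735.BF Pool.Agent.T2H96.XS
open Pool.Agent.T2H96.XE

theorem ev_anK (K : Set ℂ) {k : ℕ} (p : PcK k) {m : ℕ} (ι : Fin m → ℕ ⊕ K) :
    AnalyticOnNhd ℂ (fun t (a : Fin m) => ev K (p.φ t) (ι a)) p.U := by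
  intro t ht
  refine analyticAt_pi_iff.2 fun a => ?_
  rcases ι a with i | c
  · exact p.an i t ht
  · exact analyticAt_const

theorem regM {m n : ℕ} {S : Pt m → Pt n → Prop} (hS : GrdK S) (K : Set ℂ) (ι : Fin m → ℕ ⊕ K) :
    RegM n (fun x z => S (fun a => ev K x (ι a)) z) where
  toRegN := regN hS.toGrd K ι
  gd := by
    intro k p t ht z hz
    obtain ⟨φ, hφ, hφz, hev⟩ := hS.gd _ z hz
    have han := ev_anK K p ι t ht
    refine ⟨fun s => φ (fun a => ev K (p.φ s) (ι a)),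
      hφ.comp (f := fun s (a : Fin m) => ev K (p.φ s) (ι a)) (x := t) han, hφz, ?_⟩
    have h1 : Tendsto (fun q : Pt k × Pt n => ((fun a => ev K (p.φ q.1) (ι a) : Pt m), q.2))
        (𝓝 (t, z)) (𝓝 ((fun a => ev K (p.φ t) (ι a) : Pt m), z)) := by
      have h2 : ContinuousAt (fun q : Pt k × Pt n => (fun a => ev K (p.φ q.1) (ι a) : Pt m))
          (t, z) := ContinuousAt.comp (f := fun q : Pt k × Pt n => q.1)
            (x := (t, z)) han.continuousAt continuousAt_fst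
      exact h2.tendsto.prodMk_nhds continuousAt_snd
    exact h1.eventually hev

/-- tests on generic points -/
theorem mg_test {m : ℕ} {R : Set (Pt m)} (hR : CQ m R) (hRm : MeasurableSet R) (K : Set ℂ)
    (ι : Fin m → ℕ ⊕ K) {k : ℕ} (p : PcK k) :
    MgOn p.U {t | (fun a => ev K (p.φ t) (ι a)) ∈ R} := by
  set F : Pt k → Pt m := fun t a => ev K (p.φ t) (ι a) with hF
  have hFan : AnalyticOnNhd ℂ F p.U := ev_anK K p ι
  have hmeas : MeasurableSet (p.U ∩ F ⁻¹' R) := by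
    have h1 : MeasurableSet (p.U.restrict F ⁻¹' R) :=
      (continuousOn_iff_continuous_restrict.1 hFan.continuousOn).measurable hRm
    have h2 := MeasurableSet.subtype_image p.op.measurableSet h1
    convert h2 using 1
    ext t
    constructor
    · rintro ⟨h3, h4⟩
      exact ⟨⟨t, h3⟩, h4, rfl⟩
    · rintro ⟨⟨s, hs⟩, h4, rfl⟩
      exact ⟨hs, h4⟩
  have h := ku p.op p.conn hmeas (by
    intro c r hc x hx j
    have hcU : ∀ z ∈ ball (c j) r, Function.update x j z ∈ p.U := fun z hz =>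
      hc (mem_ball_update hx hz)
    have han := update_an x j (ball (c j) r)
    have h1 := hR (ball (c j) r) isOpen_ball (convex_ball (c j) r).isPreconnected
      (fun z => F (Function.update x j z)) (fun z hz =>
        (hFan _ (hcU z hz)).comp (f := fun z : ℂ => Function.update x j z) (x := z) (han z hz))
    refine h1.congr' ?_
    intro z hz
    exact ⟨fun h => ⟨hcU z hz, h⟩, fun h => h.2⟩)
  unfold MgOn at h ⊢
  have e1 : p.U ∩ (p.U ∩ F ⁻¹' R) = p.U ∩ {t | F t ∈ R} := by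
    ext t
    exact ⟨fun h => ⟨h.1, h.2.2⟩, fun h => ⟨h.1, h.1, h.2⟩⟩
  have e2 : p.U \ (p.U ∩ F ⁻¹' R) = p.U \ {t | F t ∈ R} := by
    ext t
    exact ⟨fun h => ⟨h.1, fun h' => h.2 ⟨h.1, h'⟩⟩, fun h => ⟨h.1, fun h' => h.2 h'.2⟩⟩
  rwa [e1, e2] at h

/-- equality of two coordinates -/
theorem mg_eq (K : Set ℂ) (a b : ℕ ⊕ K) {k : ℕ} (p : PcK k) :
    MgOn p.U {t | ev K (p.φ t) a = ev K (p.φ t) b} := by
  have h1 : CQ 2 {v : Pt 2 | v 0 - v 1 = 0} := by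
    refine CQ.zero ?_
    intro v _
    exact ((ContinuousLinearMap.proj (R := ℂ) (φ := fun _ : Fin 2 => ℂ) 0).analyticAt v).sub
      ((ContinuousLinearMap.proj (R := ℂ) (φ := fun _ : Fin 2 => ℂ) 1).analyticAt v)
  have h2 : MeasurableSet {v : Pt 2 | v 0 - v 1 = 0} := by
    apply IsClosed.measurableSet
    exact isClosed_eq ((continuous_apply 0).sub (continuous_apply 1)) continuous_const
  have h3 := mg_test h1 h2 K ![a, b] p
  have e : {t | (fun c : Fin 2 => ev K (p.φ t) (![a, b] c)) ∈ {v : Pt 2 | v 0 - v 1 = 0}} =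
      {t | ev K (p.φ t) a = ev K (p.φ t) b} := by
    ext t
    show ev K (p.φ t) a - ev K (p.φ t) b = 0 ↔ _
    rw [sub_eq_zero]
    rfl
  rwa [e] at h3

theorem snoc_inj {J : Type} {k : ℕ} {ι : Fin k → J} (hι : Function.Injective ι) {j : J}
    (hj : ∀ a, ι a ≠ j) : Function.Injective (Fin.snoc (α := fun _ => J) ι j : Fin (k + 1) → J) := by
  intro a b
  refine Fin.lastCases ?_ (fun a' => ?_) a
  · refine Fin.lastCases ?_ (fun b' => ?_) b
    · intro _; rfl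
    · intro h
      rw [Fin.snoc_last, Fin.snoc_castSucc] at h
      exact absurd h.symm (hj b')
  · refine Fin.lastCases ?_ (fun b' => ?_) b
    · intro h
      rw [Fin.snoc_last, Fin.snoc_castSucc] at h
      exact absurd h (hj a')
    · intro h
      rw [Fin.snoc_castSucc, Fin.snoc_castSucc] at h
      rw [hι h]

/-- Any bijection between countable generic sets extends to an isomorphism of the closures. -/
theorem closuresK {m n : ℕ → ℕ} {S : (k : ℕ) → Pt (m k) → Pt (n k) → Prop}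
    (hS : ∀ k, GrdK (S k)) {τ : Type} [Countable τ] {l : τ → ℕ}
    {R : (j : τ) → Set (Pt (l j))} (hR : ∀ j, CQ (l j) (R j))
    (hRm : ∀ j, MeasurableSet (R j)) {A : Set ℂ} (hA : A.Countable) :
    ∃ N : (k : ℕ) → Set (Pt k), (∀ k, IsMeagre (N k)) ∧
      ∀ (J : Type) [Countable J] (p p' : J → ℂ),
        (∀ (k : ℕ) (ι : Fin k → J), 1 ≤ k → Function.Injective ι → (fun a => p (ι a)) ∉ N k) →
        (∀ (k : ℕ) (ι : Fin k → J), 1 ≤ k → Function.Injective ι → (fun a => p' (ι a)) ∉ N k) →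
      ∃ σ : {z // Cl S (A ∪ range p) z} ≃ {z // Cl S (A ∪ range p') z},
        (∀ j, (σ ⟨p j, Cl.base (Or.inr ⟨j, rfl⟩)⟩ : ℂ) = p' j) ∧
        (∀ z, ∀ hz : Cl S A z, (σ ⟨z, hz.mono subset_union_left⟩ : ℂ) = z) ∧
        ∀ j, ∀ v : Fin (l j) → {z // Cl S (A ∪ range p) z},
          (fun a => (v a : ℂ)) ∈ R j ↔ (fun a => (σ (v a) : ℂ)) ∈ R j := by
  set K : Set ℂ := {z | Cl S A z} with hK
  have hKc : K.Countable := cl_countable (fun k => (hS k).toGrd) hA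
  have hKc' : Countable K := hKc.to_subtype
  obtain ⟨N, I, hN, hI0, hIs, hIj, hIt, hIg, hIp⟩ := engineK
    (ι := Σ k : ℕ, (Fin (m k) → ℕ ⊕ K))
    (τ := (Σ j : τ, (Fin (l j) → ℕ ⊕ K)) ⊕ ((ℕ ⊕ K) × (ℕ ⊕ K)))
    (fun i => n i.1)
    (fun i x z => S i.1 (fun a => ev K x (i.2 a)) z) (fun i => regM (hS i.1) K i.2)
    (Sum.elim (fun j x => (fun a => ev K x (j.2 a)) ∈ R j.1)
      (fun ab x => ev K x ab.1 = ev K x ab.2)) (by
      rintro (j | ab) k p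
      · exact mg_test (hR j.1) (hRm j.1) K j.2 p
      · exact mg_eq K ab.1 ab.2 p)
  refine ⟨N, hN, ?_⟩
  intro J hJ p p' hp hp'
  rcases isEmpty_or_nonempty J with hJe | ⟨⟨j₀⟩⟩
  · have h1 : range p = ∅ := range_eq_empty p
    have h2 : range p' = ∅ := range_eq_empty p'
    refine ⟨Equiv.subtypeEquivRight fun z => by rw [h1, h2], fun j => hJe.elim j, fun z hz => rfl,
      fun j v => Iff.rfl⟩
  -- the states
  set St : (p p' : J → ℂ) → (k : ℕ) → (Fin k → J) → ℕ → (ℕ → ℂ) → (ℕ → ℂ) → Prop :=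
    fun p p' k ι L x x' => 1 ≤ k ∧ Function.Injective ι ∧
      I k (fun a => p (ι a)) (fun a => p' (ι a)) L x x' ∧ (∀ i, Cl S (A ∪ range p) (x i)) ∧
      (∀ i, Cl S (A ∪ range p') (x' i)) ∧ ∀ a, ∃ i, x i = p (ι a) ∧ x' i = p' (ι a) with hSt
  have hSts : ∀ p p' k ι L x x', St p p' k ι L x x' → St p' p k ι L x' x := by
    rintro p p' k ι L x x' ⟨h1, h2, h3, h4, h5, h6⟩
    refine ⟨h1, h2, hIs _ _ _ _ _ _ h3, h5, h4, fun a => ?_⟩
    obtain ⟨i, h7, h8⟩ := h6 a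
    exact ⟨i, h8, h7⟩
  -- the generic families
  set Ge : (J → ℂ) → Prop := fun p => ∀ (k : ℕ) (ι : Fin k → J), 1 ≤ k → Function.Injective ι →
    (fun a => p (ι a)) ∉ N k with hGe
  have hcl : ∀ (p : J → ℂ) (x : ℕ → ℂ), (∀ i, Cl S (A ∪ range p) (x i)) → ∀ c : ℕ ⊕ K,
      Cl S (A ∪ range p) (ev K x c) := by
    rintro p x hx (i | c)
    · exact hx i
    · exact c.2.mono subset_union_left
  -- solving
  have hstep : ∀ p p', Ge p → Ge p' → ∀ k ι L x x', St p p' k ι L x x' → ∀ (q : ℕ)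
      (e : Fin (m q) → ℕ ⊕ K) (z : Pt (n q)), S q (fun a => ev K x (e a)) z →
      ∃ L₁ x₁ x₁', St p p' k ι L₁ x₁ x₁' ∧ (∀ i, ∃ j, x₁ j = x i ∧ x₁' j = x' i) ∧
        ∀ a, ∃ j, x₁ j = z a := by
    intro p p' hp hp' k ι L x x' hs q e z hz
    obtain ⟨h1, h2, h3, h4, h5, h6⟩ := hs
    obtain ⟨z', hz', hI'⟩ := hIg k _ _ L x x' (hp k ι h1 h2) (hp' k ι h1 h2) h3 ⟨q, e⟩ z hz
    obtain ⟨hL, hj⟩ := hIj _ _ _ _ _ _ h3
    obtain ⟨-, hj'⟩ := hIj _ _ _ _ _ _ (hIs _ _ _ _ _ _ h3)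
    have hupd : ∀ (p : J → ℂ) (x : ℕ → ℂ), (∀ i, Cl S (A ∪ range p) (x i)) → ∀ z : Pt (n q),
        (∀ a, Cl S (A ∪ range p) (z a)) → ∀ i, Cl S (A ∪ range p) (upd L x z i) := by
      intro p x hx z hz i
      unfold upd
      split
      · exact hz _
      · exact hx i
    have hle : ∀ i, ∃ j, upd L x z j = x i ∧ upd L x' z' j = x' i := by
      intro i
      by_cases h : i < L
      · exact ⟨i, by rw [upd_of (Or.inl h)], by rw [upd_of (Or.inl h)]⟩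
      · refine ⟨0, ?_⟩
        rw [upd_of (Or.inl (by omega)), upd_of (Or.inl (by omega))]
        exact ⟨(hj _ (by omega)).symm, (hj' _ (by omega)).symm⟩
    refine ⟨L + n q, upd L x z, upd L x' z', ⟨h1, h2, hI', ?_, ?_, ?_⟩, hle,
      fun a => ⟨L + a, upd_in a _ _⟩⟩
    · exact hupd p x h4 z (Cl.sol (fun a => hcl p x h4 (e a)) hz)
    · exact hupd p' x' h5 z' (Cl.sol (fun a => hcl p' x' h5 (e a)) hz')
    · intro a
      obtain ⟨i, h7, h8⟩ := h6 a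
      obtain ⟨j, h9, h10⟩ := hle i
      exact ⟨j, h9.trans h7, h10.trans h8⟩
  -- adding a parameter
  have hpar : ∀ p p' : J → ℂ, ∀ k ι L x x', St p p' k ι L x x' → ∀ j : J,
      ∃ k₁ ι₁ L₁ x₁ x₁', St p p' k₁ ι₁ L₁ x₁ x₁' ∧ (∀ i, ∃ j, x₁ j = x i ∧ x₁' j = x' i) ∧
        ∃ i, x₁ i = p j ∧ x₁' i = p' j := by
    intro p p' k ι L x x' hs j
    by_cases hjι : ∃ a, ι a = j
    · obtain ⟨a, rfl⟩ := hjι
      exact ⟨k, ι, L, x, x', hs, fun i => ⟨i, rfl, rfl⟩, hs.2.2.2.2.2 a⟩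
    push Not at hjι
    obtain ⟨h1, h2, h3, h4, h5, h6⟩ := hs
    obtain ⟨hL, hj⟩ := hIj _ _ _ _ _ _ h3
    obtain ⟨-, hj'⟩ := hIj _ _ _ _ _ _ (hIs _ _ _ _ _ _ h3)
    have hle : ∀ i, ∃ i', Function.update x L (p j) i' = x i ∧
        Function.update x' L (p' j) i' = x' i := by
      intro i
      by_cases h : i = L
      · refine ⟨0, ?_⟩
        rw [Function.update_of_ne (by omega), Function.update_of_ne (by omega), h]
        exact ⟨(hj _ le_rfl).symm, (hj' _ le_rfl).symm⟩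
      · exact ⟨i, by rw [Function.update_of_ne h], by rw [Function.update_of_ne h]⟩
    have hupd : ∀ (p : J → ℂ) (x : ℕ → ℂ), (∀ i, Cl S (A ∪ range p) (x i)) →
        ∀ i, Cl S (A ∪ range p) (Function.update x L (p j) i) := by
      intro p x hx i
      by_cases h : i = L
      · rw [h, Function.update_self]
        exact Cl.base (Or.inr ⟨j, rfl⟩)
      · rw [Function.update_of_ne h]
        exact hx i
    have e : ∀ p : J → ℂ, (fun a => p ((Fin.snoc (α := fun _ => J) ι j : Fin (k + 1) → J) a)) =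
        (Fin.snoc (α := fun _ => ℂ) (fun a => p (ι a)) (p j) : Pt (k + 1)) := by
      intro p
      funext a
      refine Fin.lastCases ?_ (fun b => ?_) a
      · simp
      · simp
    refine ⟨k + 1, (Fin.snoc (α := fun _ => J) ι j : Fin (k + 1) → J), L + 1,
      Function.update x L (p j), Function.update x' L (p' j),
      ⟨by omega, snoc_inj h2 hjι, ?_, hupd p x h4, hupd p' x' h5, ?_⟩, hle,
      L, Function.update_self _ _ _, Function.update_self _ _ _⟩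
    · rw [e p, e p']
      exact hIp _ _ _ _ _ _ _ _ h3
    · intro a
      refine Fin.lastCases ?_ (fun b => ?_) a
      · rw [Fin.snoc_last]
        exact ⟨L, Function.update_self _ _ _, Function.update_self _ _ _⟩
      · rw [Fin.snoc_castSucc]
        obtain ⟨i, h7, h8⟩ := h6 b
        obtain ⟨i', h9, h10⟩ := hle i
        exact ⟨i', h9.trans h7, h10.trans h8⟩
  -- every element of the closure can be reached
  have hreach : ∀ p p', Ge p → Ge p' → ∀ z, Cl S (A ∪ range p) z →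
      ∀ k ι L x x', St p p' k ι L x x' →
      ∃ k₁ ι₁ L₁ x₁ x₁', St p p' k₁ ι₁ L₁ x₁ x₁' ∧ (∀ i, ∃ j, x₁ j = x i ∧ x₁' j = x' i) ∧
        ∃ c : ℕ ⊕ K, ev K x₁ c = z := by
    intro p p' hp hp' z hz
    induction hz with
    | @base z hz =>
      intro k ι L x x' hs
      rcases hz with hz | ⟨j, rfl⟩
      · exact ⟨k, ι, L, x, x', hs, fun i => ⟨i, rfl, rfl⟩, Sum.inr ⟨z, Cl.base hz⟩, rfl⟩
      · obtain ⟨k₁, ι₁, L₁, x₁, x₁', h1, h2, i, h3, -⟩ := hpar p p' k ι L x x' hs j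
        exact ⟨k₁, ι₁, L₁, x₁, x₁', h1, h2, Sum.inl i, h3⟩
    | @sol q y z hy hz b ih =>
      intro k ι L x x' hs
      obtain ⟨s, hs1, hs2⟩ := exists_all
        (S := {s : (Σ k : ℕ, (Fin k → J)) × ℕ × (ℕ → ℂ) × (ℕ → ℂ) //
          St p p' s.1.1 s.1.2 s.2.1 s.2.2.1 s.2.2.2})
        (fun s s' => ∀ i, ∃ j, s'.1.2.2.1 j = s.1.2.2.1 i ∧ s'.1.2.2.2 j = s.1.2.2.2 i)
        (fun s i => ⟨i, rfl, rfl⟩)
        (fun s s' s'' h h' i => by
          obtain ⟨j, h1, h2⟩ := h i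
          obtain ⟨j', h3, h4⟩ := h' j
          exact ⟨j', h3.trans h1, h4.trans h2⟩)
        (m := m q) (fun a s => ∃ c : ℕ ⊕ K, ev K s.1.2.2.1 c = y a)
        (fun a s s' h => by
          rintro ⟨c | c, hc⟩
          · obtain ⟨j, h1, -⟩ := h c
            exact ⟨Sum.inl j, h1.trans hc⟩
          · exact ⟨Sum.inr c, hc⟩)
        (fun a s => by
          obtain ⟨k₁, ι₁, L₁, x₁, x₁', h1, h2, h3⟩ := ih a _ _ _ _ _ s.2
          exact ⟨⟨(⟨k₁, ι₁⟩, L₁, x₁, x₁'), h1⟩, h2, h3⟩)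
        ⟨(⟨k, ι⟩, L, x, x'), hs⟩
      choose c hc using hs2
      obtain ⟨⟨⟨k₂, ι₂⟩, L₂, x₂, x₂'⟩, hs3⟩ := s
      simp only at hs1 hc hs3
      have hy' : (fun a => ev K x₂ (c a)) = y := funext hc
      obtain ⟨L₁, x₁, x₁', h1, h2, h3⟩ := hstep p p' hp hp' k₂ ι₂ L₂ x₂ x₂' hs3 q c z
        (by rw [hy']; exact hz)
      obtain ⟨j, h3⟩ := h3 b
      refine ⟨k₂, ι₂, L₁, x₁, x₁', h1, ?_, Sum.inl j, h3⟩
      intro i
      obtain ⟨j, h4, h5⟩ := hs1 i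
      obtain ⟨j', h6, h7⟩ := h2 j
      exact ⟨j', h6.trans h4, h7.trans h5⟩
  have hclp : ∀ p : J → ℂ, Cl S (A ∪ range p) (p j₀) := fun p => Cl.base (Or.inr ⟨j₀, rfl⟩)
  have hs₀ : St p p' 1 (fun _ => j₀) 1 (fun _ => p j₀) (fun _ => p' j₀) :=
    ⟨le_rfl, fun a b _ => Subsingleton.elim a b, hI0 (fun _ => p j₀) (fun _ => p' j₀),
      fun _ => hclp p, fun _ => hclp p', fun _ => ⟨0, rfl, rfl⟩⟩
  have hc0 : ∀ p : J → ℂ, Countable {z // Cl S (A ∪ range p) z} := fun p =>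
    (cl_countable (fun k => (hS k).toGrd) (hA.union (countable_range _))).to_subtype
  have hc1 := hc0 p
  have hc2 := hc0 p'
  obtain ⟨c, -, hcmono, hcD⟩ := exists_chain
    (S := {s : (Σ k : ℕ, (Fin k → J)) × ℕ × (ℕ → ℂ) × (ℕ → ℂ) //
      St p p' s.1.1 s.1.2 s.2.1 s.2.2.1 s.2.2.2})
    (fun s s' => ∀ i, ∃ j, s'.1.2.2.1 j = s.1.2.2.1 i ∧ s'.1.2.2.2 j = s.1.2.2.2 i)
    (fun s i => ⟨i, rfl, rfl⟩)
    (fun s s' s'' h h' i => by
      obtain ⟨j, h1, h2⟩ := h i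
      obtain ⟨j', h3, h4⟩ := h' j
      exact ⟨j', h3.trans h1, h4.trans h2⟩)
    (ι := ({z // Cl S (A ∪ range p) z} ⊕ {z // Cl S (A ∪ range p') z}) ⊕ J)
    (Sum.elim (Sum.elim (fun z s => ∃ e : ℕ ⊕ K, ev K s.1.2.2.1 e = z)
      (fun z s => ∃ e : ℕ ⊕ K, ev K s.1.2.2.2 e = z))
      (fun j s => ∃ i, s.1.2.2.1 i = p j ∧ s.1.2.2.2 i = p' j)) (by
      rintro ((z | z) | j) s
      · obtain ⟨k₁, ι₁, L₁, x₁, x₁', h1, h2, h3⟩ := hreach p p' hp hp' z.1 z.2 _ _ _ _ _ s.2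
        exact ⟨⟨(⟨k₁, ι₁⟩, L₁, x₁, x₁'), h1⟩, h2, h3⟩
      · obtain ⟨k₁, ι₁, L₁, x₁, x₁', h1, h2, h3⟩ := hreach p' p hp' hp z.1 z.2 _ _ _ _ _
          (hSts _ _ _ _ _ _ _ s.2)
        refine ⟨⟨(⟨k₁, ι₁⟩, L₁, x₁', x₁), hSts _ _ _ _ _ _ _ h1⟩, ?_, h3⟩
        intro i
        obtain ⟨j', h6, h7⟩ := h2 i
        exact ⟨j', h7, h6⟩
      · obtain ⟨k₁, ι₁, L₁, x₁, x₁', h1, h2, h3⟩ := hpar p p' _ _ _ _ _ s.2 j
        exact ⟨⟨(⟨k₁, ι₁⟩, L₁, x₁, x₁'), h1⟩, h2, h3⟩)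
    ⟨(⟨1, fun _ => j₀⟩, 1, fun _ => p j₀, fun _ => p' j₀), hs₀⟩
  set G : ℂ → ℂ → Prop := fun a b => ∃ (M : ℕ) (e : ℕ ⊕ K), ev K (c M).1.2.2.1 e = a ∧
    ev K (c M).1.2.2.2 e = b with hG
  have hfin : ∀ (l : ℕ) (v w : Fin l → ℂ), (∀ a, G (v a) (w a)) → ∃ (M : ℕ)
      (ι : Fin l → ℕ ⊕ K), (fun a => ev K (c M).1.2.2.1 (ι a)) = v ∧
        (fun a => ev K (c M).1.2.2.2 (ι a)) = w := by
    intro l v w h
    choose M e h1 h2 using h
    have h3 : ∀ a, ∃ e' : ℕ ⊕ K, ev K (c (Finset.univ.sup M)).1.2.2.1 e' = v a ∧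
        ev K (c (Finset.univ.sup M)).1.2.2.2 e' = w a := by
      intro a
      have h4 := hcmono (M a) (Finset.univ.sup M) (Finset.le_sup (Finset.mem_univ a))
      have h5 := h1 a
      have h6 := h2 a
      generalize e a = u at h5 h6
      rcases u with i | k
      · obtain ⟨j, h7, h8⟩ := h4 i
        exact ⟨Sum.inl j, h7.trans h5, h8.trans h6⟩
      · exact ⟨Sum.inr k, h5, h6⟩
    choose ι h4 h5 using h3
    exact ⟨_, ι, funext h4, funext h5⟩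
  have hIM : ∀ M, I (c M).1.1.1 (fun a => p ((c M).1.1.2 a)) (fun a => p' ((c M).1.1.2 a))
      (c M).1.2.1 (c M).1.2.2.1 (c M).1.2.2.2 ∧ (fun a => p ((c M).1.1.2 a)) ∉ N (c M).1.1.1 ∧
      (fun a => p' ((c M).1.1.2 a)) ∉ N (c M).1.1.1 := by
    intro M
    obtain ⟨h1, h2, h3, -⟩ := (c M).2
    exact ⟨h3, hp _ _ h1 h2, hp' _ _ h1 h2⟩
  have hrel : ∀ j (v w : Fin (l j) → ℂ), (∀ a, G (v a) (w a)) → (v ∈ R j ↔ w ∈ R j) := by
    intro j v w h
    obtain ⟨M, ι, rfl, rfl⟩ := hfin _ v w h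
    obtain ⟨h1, h2, h3⟩ := hIM M
    exact ⟨hIt _ _ _ _ _ _ h2 h3 h1 (Sum.inl ⟨j, ι⟩),
      hIt _ _ _ _ _ _ h3 h2 (hIs _ _ _ _ _ _ h1) (Sum.inl ⟨j, ι⟩)⟩
  have heq : ∀ a b a' b', G a b → G a' b' → (a = a' ↔ b = b') := by
    intro a b a' b' h h'
    obtain ⟨M, ι, h1, h2⟩ := hfin 2 ![a, a'] ![b, b'] (by
      intro i
      fin_cases i
      · exact h
      · exact h')
    have e1 := congrFun h1 0
    have e2 := congrFun h1 1
    have e3 := congrFun h2 0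
    have e4 := congrFun h2 1
    simp only [Matrix.cons_val_zero, Matrix.cons_val_one] at e1 e2 e3 e4
    rw [← e1, ← e2, ← e3, ← e4]
    obtain ⟨h5, h6, h7⟩ := hIM M
    exact ⟨hIt _ _ _ _ _ _ h6 h7 h5 (Sum.inr (ι 0, ι 1)),
      hIt _ _ _ _ _ _ h7 h6 (hIs _ _ _ _ _ _ h5) (Sum.inr (ι 0, ι 1))⟩
  have hex : ∀ z : {z // Cl S (A ∪ range p) z},
      ∃ w : {z // Cl S (A ∪ range p') z}, G z w := by
    intro z
    obtain ⟨M, e, he⟩ := hcD (Sum.inl (Sum.inl z))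
    exact ⟨⟨_, hcl p' _ (c M).2.2.2.2.2.1 e⟩, M, e, he, rfl⟩
  have hex' : ∀ w : {z // Cl S (A ∪ range p') z},
      ∃ z : {z // Cl S (A ∪ range p) z}, G z w := by
    intro w
    obtain ⟨M, e, he⟩ := hcD (Sum.inl (Sum.inr w))
    exact ⟨⟨_, hcl p _ (c M).2.2.2.2.1 e⟩, M, e, rfl, he⟩
  choose f hf using hex
  choose f' hf' using hex'
  have hfG : ∀ (z : {z // Cl S (A ∪ range p) z}) b, G z b → (f z : ℂ) = b :=
    fun z b h => (heq z (f z) z b (hf z) h).1 rfl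
  refine ⟨⟨f, f', ?_, ?_⟩, ?_, ?_, ?_⟩
  · intro z
    exact Subtype.ext ((heq _ _ _ _ (hf' (f z)) (hf z)).2 rfl)
  · intro w
    exact Subtype.ext ((heq _ _ _ _ (hf (f' w)) (hf' w)).1 rfl)
  · intro j
    apply hfG
    obtain ⟨M, i, h1, h2⟩ := hcD (Sum.inr j)
    exact ⟨M, Sum.inl i, h1, h2⟩
  · intro z hz
    apply hfG
    exact ⟨0, Sum.inr ⟨z, hz⟩, rfl, rfl⟩
  · intro j v
    exact hrel j _ _ fun a => hf (v a)

end Pool.Agent.T2H96.XP
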