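import Pool.Agent.T2H96.XE.Closure

/-!
Generic tuples: definitions.
-/

set_option autoImplicit false

namespace Pool.Agent.T2H96.XP

open Set Filter Topology Metric
open scoped Cardinal
open Pool.Agent.TH735.QM Pool.Agent.TH735.FO Pool.Agent.TH735.BF Pool.Agent.T2H96.XS
open Pool.Agent.T2H96.XE

/-- `S` is meagre or comeagre in `U` -/
def MgOn {k : ℕ} (U S : Set (Pt k)) : Prop := IsMeagre (U ∩ S) ∨ IsMeagre (U \ S)

/-- near `p` the set of all `q` with `P q` is the graph of an analytic function of the first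
coordinate -/
def GoodK {k n : ℕ} (P : Pt k × Pt n → Prop) (p : Pt k × Pt n) : Prop :=
  ∃ φ : Pt k → Pt n, AnalyticAt ℂ φ p.1 ∧ φ p.1 = p.2 ∧
    ∀ᶠ q : Pt k × Pt n in 𝓝 p, (P q ↔ q.2 = φ q.1)

/-- relations that may be used to guard quantifiers over `x ∈ ℂ^n`, and which are locally graphs
of analytic functions of `y` -/
structure GrdK {m n : ℕ} (S : Pt m → Pt n → Prop) : Prop extends Grd S where
  gd : ∀ y x, S y x → GoodK (fun q : Pt m × Pt n => S q.1 q.2) (y, x)

/-- `x` is a simple zero of `F(y, ·)` -/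
def IsSimple {m : ℕ} (F : Pt m → ℂ → ℂ) (y : Pt m) (x : ℂ) : Prop := F y x = 0 ∧ deriv (F y) x ≠ 0

end Pool.Agent.T2H96.XP
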