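import Pool.Agent.T2H96.XP.PieceK2

/-!
A back-and-forth system between any two generic tuples.
-/

set_option autoImplicit false

namespace Pool.Agent.T2H96.XP

open Set Filter Topology Metric
open scoped Cardinal
open Pool.Agent.TH735.QM Pool.Agent.TH735.FO Pool.Agent.TH735.BF Pool.Agent.T2H96.XS
open Pool.Agent.T2H96.XE

/-- the constant sequence -/
def rootK : PcK 1 where
  U := univ
  φ := fun t _ => t 0
  op := isOpen_univ
  conn := isPreconnected_univ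
  ne := univ_nonempty
  an := fun _ t _ => (ContinuousLinearMap.proj (R := ℂ) (φ := fun _ : Fin 1 => ℂ) 0).analyticAt t

theorem engineK {ι τ : Type} [Countable ι] [Countable τ] (n : ι → ℕ)
    (g : (i : ι) → (ℕ → ℂ) → Pt (n i) → Prop) (hg : ∀ i, RegM (n i) (g i))
    (T : τ → (ℕ → ℂ) → Prop) (hT : ∀ j (k : ℕ) (p : PcK k), MgOn p.U {t | T j (p.φ t)}) :
    ∃ (N : (k : ℕ) → Set (Pt k)) (I : (k : ℕ) → Pt k → Pt k → ℕ → (ℕ → ℂ) → (ℕ → ℂ) → Prop),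
      (∀ k, IsMeagre (N k)) ∧
      (∀ a a' : Pt 1, I 1 a a' 1 (fun _ => a 0) (fun _ => a' 0)) ∧
      (∀ k a a' L x x', I k a a' L x x' → I k a' a L x' x) ∧
      (∀ k a a' L x x', I k a a' L x x' → 1 ≤ L ∧ ∀ i ≥ L, x i = x 0) ∧
      (∀ k a a' L x x', a ∉ N k → a' ∉ N k → I k a a' L x x' → ∀ j, T j x → T j x') ∧
      (∀ k a a' L x x', a ∉ N k → a' ∉ N k → I k a a' L x x' → ∀ i z, g i x z →
        ∃ z', g i x' z' ∧ I k a a' (L + n i) (upd L x z) (upd L x' z')) ∧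
      (∀ k a a' L x x' (z z' : ℂ), I k a a' L x x' →
        I (k + 1) (Fin.snoc (α := fun _ => ℂ) a z) (Fin.snoc (α := fun _ => ℂ) a' z') (L + 1)
          (Function.update x L z) (Function.update x' L z')) := by
  choose Q hQc hQ1 hQ2 using fun (i : ι) (k : ℕ) (p : PcK k) (L : ℕ) => coverK (hg i) p L
  set 𝒮 : ℕ → Set (Σ k, PcK k × ℕ) := fun N => Nat.rec {⟨1, rootK, 1⟩}
    (fun _ S => ⋃ s ∈ S, ((⋃ i, (fun q => (⟨s.1, q, s.2.2 + n i⟩ : Σ k, PcK k × ℕ)) ''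
      Q i s.1 s.2.1 s.2.2) ∪ {⟨s.1 + 1, s.2.1.ext s.2.2, s.2.2 + 1⟩})) N with h𝒮
  have hS0 : 𝒮 0 = {⟨1, rootK, 1⟩} := rfl
  have hSs : ∀ N, 𝒮 (N + 1) = ⋃ s ∈ 𝒮 N, ((⋃ i, (fun q => (⟨s.1, q, s.2.2 + n i⟩ :
      Σ k, PcK k × ℕ)) '' Q i s.1 s.2.1 s.2.2) ∪ {⟨s.1 + 1, s.2.1.ext s.2.2, s.2.2 + 1⟩}) :=
    fun N => rfl
  have hSc : ∀ N, (𝒮 N).Countable := by
    intro N
    induction N with
    | zero => rw [hS0]; exact countable_singleton _
    | succ N ih =>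
      rw [hSs]
      exact ih.biUnion fun s _ => (countable_iUnion fun i => (hQc i _ _ _).image _).union
        (countable_singleton _)
  set 𝒟 : (k : ℕ) → Set (PcK k × ℕ) := fun k => {s | (⟨k, s⟩ : Σ k, PcK k × ℕ) ∈ ⋃ N, 𝒮 N}
    with h𝒟
  have hDc : ∀ k, (𝒟 k).Countable := fun k =>
    (countable_iUnion hSc).preimage_of_injOn (sigma_mk_injective.injOn)
  have hDQ : ∀ k (p : PcK k) L, (p, L) ∈ 𝒟 k → ∀ i, ∀ q ∈ Q i k p L, (q, L + n i) ∈ 𝒟 k := by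
    intro k p L hp i q hq
    obtain ⟨N, hN⟩ := mem_iUnion.1 hp
    refine mem_iUnion.2 ⟨N + 1, ?_⟩
    rw [hSs]
    exact mem_iUnion₂.2 ⟨⟨k, p, L⟩, hN, Or.inl (mem_iUnion.2 ⟨i, q, hq, rfl⟩)⟩
  have hDe : ∀ k (p : PcK k) L, (p, L) ∈ 𝒟 k → (p.ext L, L + 1) ∈ 𝒟 (k + 1) := by
    intro k p L hp
    obtain ⟨N, hN⟩ := mem_iUnion.1 hp
    refine mem_iUnion.2 ⟨N + 1, ?_⟩
    rw [hSs]
    exact mem_iUnion₂.2 ⟨⟨k, p, L⟩, hN, Or.inr rfl⟩
  have hjunk : ∀ N, ∀ s ∈ 𝒮 N, 1 ≤ s.2.2 ∧ ∀ t ∈ s.2.1.U, ∀ i ≥ s.2.2,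
      s.2.1.φ t i = s.2.1.φ t 0 := by
    intro N
    induction N with
    | zero =>
      intro s hs
      rw [hS0, mem_singleton_iff] at hs
      subst hs
      exact ⟨le_rfl, fun t _ i _ => rfl⟩
    | succ N ih =>
      intro s' hs'
      rw [hSs] at hs'
      obtain ⟨s, hs, hs'⟩ := mem_iUnion₂.1 hs'
      obtain ⟨h1, h2⟩ := ih s hs
      rcases hs' with hs' | hs'
      · obtain ⟨i, q, hq, rfl⟩ := mem_iUnion.1 hs'
        obtain ⟨hsub, h3⟩ := hQ1 i _ _ _ q hq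
        refine ⟨?_, ?_⟩
        · show 1 ≤ s.2.2 + n i
          omega
        · intro t ht j hj
          have h4 := (h3 t ht).1
          have hj' : s.2.2 + n i ≤ j := hj
          show q.φ t j = q.φ t 0
          rw [h4, upd_of (Or.inr hj'), upd_of (Or.inl (by omega))]
          exact h2 t (hsub ht) j (by omega)
      · rw [mem_singleton_iff] at hs'
        subst hs'
        refine ⟨?_, ?_⟩
        · show 1 ≤ s.2.2 + 1
          omega
        · intro t ht j hj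
          have hj' : s.2.2 + 1 ≤ j := hj
          show Function.update (s.2.1.φ fun i : Fin s.1 => t i.castSucc) s.2.2 (t (Fin.last s.1)) j
            = Function.update (s.2.1.φ fun i : Fin s.1 => t i.castSucc) s.2.2
              (t (Fin.last s.1)) 0
          rw [Function.update_of_ne (by omega), Function.update_of_ne (by omega)]
          exact h2 _ ht j (by omega)
  -- the exceptional sets
  set N : (k : ℕ) → Set (Pt k) := fun k => ⋃ s ∈ 𝒟 k,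
    ((⋃ j, excK (fun φ t => T j (φ t)) s.1) ∪
      (⋃ i, ⋃ w ∈ 𝒟 k, excK (EtK (g i) s.2 w.1) s.1)) with hN
  have hNm : ∀ k, IsMeagre (N k) := by
    intro k
    refine isMeagre_biUnion (hDc k) fun s _ => ?_
    refine (isMeagre_iUnion fun j => excK_meagre (reg_testK (hT j k)) s.1).union ?_
    exact isMeagre_iUnion fun i => isMeagre_biUnion (hDc k) fun w _ =>
      excK_meagre (reg_EtK (hg i) _ _) s.1
  have hB1 : ∀ k t, t ∉ N k → ∀ s ∈ 𝒟 k, t ∈ s.1.U → ∀ j, (T j (s.1.φ t) ↔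
      GnK (fun φ t => T j (φ t)) s.1) := by
    intro k t htN s hs ht j
    by_contra hcon
    apply htN
    exact mem_iUnion₂.2 ⟨s, hs, Or.inl (mem_iUnion.2 ⟨j, ht, hcon⟩)⟩
  have hB2 : ∀ k t, t ∉ N k → ∀ s ∈ 𝒟 k, t ∈ s.1.U → ∀ i, ∀ w ∈ 𝒟 k,
      (EtK (g i) s.2 w.1 s.1.φ t ↔ GnK (EtK (g i) s.2 w.1) s.1) := by
    intro k t htN s hs ht i w hw
    by_contra hcon
    apply htN
    exact mem_iUnion₂.2 ⟨s, hs, Or.inr (mem_iUnion.2 ⟨i, mem_iUnion₂.2 ⟨w, hw, ht, hcon⟩⟩)⟩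
  refine ⟨N, fun k a a' L x x' => ∃ p p' : PcK k, (p, L) ∈ 𝒟 k ∧ (p', L) ∈ 𝒟 k ∧ EqvK p p' ∧
    a ∈ p.U ∧ a' ∈ p'.U ∧ x = p.φ a ∧ x' = p'.φ a', hNm, ?_, ?_, ?_, ?_, ?_, ?_⟩
  · intro a a'
    have h1 : (rootK, 1) ∈ 𝒟 1 := mem_iUnion.2 ⟨0, rfl⟩
    exact ⟨rootK, rootK, h1, h1, EqvK.refl _, mem_univ _, mem_univ _, rfl, rfl⟩
  · rintro k a a' L x x' ⟨p, p', hp, hp', he, ha, ha', hx, hx'⟩
    exact ⟨p', p, hp', hp, he.symm, ha', ha, hx', hx⟩
  · rintro k a a' L x x' ⟨p, p', hp, hp', he, ha, ha', hx, hx'⟩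
    obtain ⟨M, hM⟩ := mem_iUnion.1 hp
    obtain ⟨h1, h2⟩ := hjunk M _ hM
    refine ⟨h1, fun i hi => ?_⟩
    rw [hx]
    exact h2 a ha i hi
  · rintro k a a' L x x' haN haN' ⟨p, p', hp, hp', he, ha, ha', hx, hx'⟩ j hj
    rw [hx] at hj
    rw [hx']
    exact (hB1 k a' haN' (p', L) hp' ha' j).2 (((hB1 k a haN (p, L) hp ha j).1 hj).eqv
      (reg_testK (hT j k)) he)
  · rintro k a a' L x x' haN haN' ⟨p, p', hp, hp', he, ha, ha', rfl, rfl⟩ i z hz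
    obtain ⟨q, hq, htq, hqz⟩ := hQ2 i k p L a ha z hz
    obtain ⟨hqU, hq1⟩ := hQ1 i k p L q hq
    have hqD : (q, L + n i) ∈ 𝒟 k := hDQ k p L hp i q hq
    have hE : EtK (g i) L q p.φ a := by
      refine ⟨z, hz, q, EqvK.refl _, htq, hqz, ?_⟩
      filter_upwards [q.op.mem_nhds htq] with s hs
      exact hq1 s hs
    have hE' : EtK (g i) L q p'.φ a' :=
      (hB2 k a' haN' (p', L) hp' ha' i (q, L + n i) hqD).2
        (((hB2 k a haN (p, L) hp ha i (q, L + n i) hqD).1 hE).eqv (reg_EtK (hg i) _ _) he)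
    obtain ⟨z', hz', q'', hq''q, htq'', hqz'', hev⟩ := hE'
    obtain ⟨q', hq', htq', hqz'⟩ := hQ2 i k p' L a' ha' z' hz'
    obtain ⟨hqU', hq1'⟩ := hQ1 i k p' L q' hq'
    have hqD' : (q', L + n i) ∈ 𝒟 k := hDQ k p' L hp' i q' hq'
    have huniq := goodK_unique ((hg i).gd k p' a' ha' z' hz')
      (blk_anK L q' a' htq').continuousAt
      (blk_anK L q'' a' htq'').continuousAt hqz' hqz'' (by
        filter_upwards [q'.op.mem_nhds htq'] with s hs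
        exact (hq1' s hs).2) (hev.mono fun s hs => hs.2)
    have hov : OvK q' q'' := by
      refine ⟨a', htq', htq'', ?_⟩
      filter_upwards [huniq, hev, q'.op.mem_nhds htq'] with s h1 h2 h3
      rw [(hq1' s h3).1, h2.1, h1]
    refine ⟨z', hz', q, q', hqD, hqD', (hov.eqv.trans hq''q).symm, htq, htq', ?_, ?_⟩
    · rw [(hq1 a htq).1, hqz]
    · rw [(hq1' a' htq').1, hqz']
  · rintro k a a' L x x' z z' ⟨p, p', hp, hp', he, ha, ha', rfl, rfl⟩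
    have e : ∀ (a : Pt k) (z : ℂ),
        (fun i : Fin k => (Fin.snoc (α := fun _ => ℂ) a z : Pt (k + 1)) i.castSucc) = a := by
      intro a z
      funext i
      simp
    refine ⟨p.ext L, p'.ext L, hDe k p L hp, hDe k p' L hp', he.ext L, ?_, ?_, ?_, ?_⟩
    · show (fun i : Fin k => (Fin.snoc (α := fun _ => ℂ) a z : Pt (k + 1)) i.castSucc) ∈ p.U
      rw [e]
      exact ha
    · show (fun i : Fin k => (Fin.snoc (α := fun _ => ℂ) a' z' : Pt (k + 1)) i.castSucc) ∈ p'.U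
      rw [e]
      exact ha'
    · show _ = Function.update (p.φ fun i : Fin k =>
        (Fin.snoc (α := fun _ => ℂ) a z : Pt (k + 1)) i.castSucc) L
        ((Fin.snoc (α := fun _ => ℂ) a z : Pt (k + 1)) (Fin.last k))
      rw [e, Fin.snoc_last]
    · show _ = Function.update (p'.φ fun i : Fin k =>
        (Fin.snoc (α := fun _ => ℂ) a' z' : Pt (k + 1)) i.castSucc) L
        ((Fin.snoc (α := fun _ => ℂ) a' z' : Pt (k + 1)) (Fin.last k))
      rw [e, Fin.snoc_last]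

end Pool.Agent.T2H96.XP
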