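import Pool.Agent.T2H96.XP.Defs

/-!
PACKAGE MY (60-90 min). The theorem of Mycielski: a perfect set all of whose tuples of distinct
elements avoid given meagre sets.

Paper proof. `N k ⊆ ⋃ j, F k j` with `F k j` closed nowhere dense (`isMeagre_iff_countable_union_isNowhereDense`; take closures).
Construct by recursion for every `n` a function `B n` from `Fin n → Bool` to closed balls (centre, radius `ρ > 0`) in `V`
such that: the balls of level `n` are pairwise disjoint, have radius `≤ 2^{-n}`, the ball of a sequence of length `n + 1`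
is contained in the ball of its restriction to `n`, and for all `k ≤ n`, `j ≤ n` and all injective
`s : Fin k → (Fin n → Bool)` the product of the balls `B n (s i)` is disjoint from `F k j`. Step: take two distinct
points in the interior of every ball of level `n` and small closed balls around them; then shrink finitely many times, once for
every `(k, j, s)`: the product of the open balls (a nonempty open subset of `Pt k`) is not contained in
`F k j`, which is closed, so there are smaller closed balls with product disjoint from `F k j` (for those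
indices which occur in `s`; the others are not changed). One can organise this as: for a finite index type `ι`,
the set `{c : ι → ℂ | ∀ (k, j, s), (fun i => c (s i)) ∉ F k j}` is open and dense in `ι → ℂ` (for injective `s` the
preimage of a closed nowhere dense set under `c ↦ c ∘ s` is closed nowhere dense: `IsOpenMap`), so one may
choose new centres in this set near the old ones, and then one small radius for all. Then `f η` is the
point in the intersection of the balls `B n (η|n)`. Continuity and injectivity are clear, and if `x : Fin k → (ℕ → Bool)` is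
injective then for all large `n` the restrictions `x i | n` are distinct, so `f ∘ x ∉ F k j`. (`CantorScheme` in
Mathlib.Topology.MetricSpace.CantorScheme may help.)

`perfect_range`: the range is compact, so closed; no point of the Cantor space is isolated, and `f` is injective and
continuous.
-/

set_option autoImplicit false

namespace Pool.Agent.T2H96.XP

open Set Filter Topology Metric
open Pool.Agent.T2H96.XS

/-- the tuples of points whose restrictions to `n` are pairwise distinct -/
theorem my_closed (k n : ℕ) : IsClosed {x : Fin k → (ℕ → Bool) |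
    ∀ i j, i ≠ j → ∃ l < n, x i l ≠ x j l} := by
  simp only [ofPred_forall]
  refine isClosed_iInter fun i => isClosed_iInter fun j => isClosed_iInter fun _ => ?_
  have h1 : {x : Fin k → (ℕ → Bool) | ∃ l < n, x i l ≠ x j l} =
      ⋃ l ∈ Finset.range n, {x : Fin k → (ℕ → Bool) | x i l ≠ x j l} := by
    ext x
    simp
  rw [h1]
  refine isClosed_biUnion_finset fun l _ => ?_
  have h2 : {x : Fin k → (ℕ → Bool) | x i l ≠ x j l} =
      (fun x : Fin k → (ℕ → Bool) => (x i l, x j l)) ⁻¹' {p | p.1 ≠ p.2} := rfl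
  rw [h2]
  exact (isClosed_discrete _).preimage (by fun_prop)

/-- the condition on `f` for one open set and one level is open -/
theorem my_open (k n : ℕ) {U : Set (Fin k → ℂ)} (hU : IsOpen U) :
    IsOpen {f : C(ℕ → Bool, ℂ) | ∀ x : Fin k → (ℕ → Bool),
      (∀ i j, i ≠ j → ∃ l < n, x i l ≠ x j l) → (fun i => f (x i)) ∈ U} := by
  rw [← isClosed_compl_iff]
  have h1 : {f : C(ℕ → Bool, ℂ) | ∀ x : Fin k → (ℕ → Bool),
      (∀ i j, i ≠ j → ∃ l < n, x i l ≠ x j l) → (fun i => f (x i)) ∈ U}ᶜ =
      Prod.fst '' {p : C(ℕ → Bool, ℂ) × (Fin k → (ℕ → Bool)) |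
        (∀ i j, i ≠ j → ∃ l < n, p.2 i l ≠ p.2 j l) ∧ (fun i => p.1 (p.2 i)) ∈ Uᶜ} := by
    ext f
    simp only [mem_compl_iff, mem_ofPred_eq, mem_image, Prod.exists, exists_and_right,
      exists_eq_right, not_forall]
    constructor
    · rintro ⟨x, hx, hx'⟩
      exact ⟨x, hx, hx'⟩
    · rintro ⟨x, hx, hx'⟩
      exact ⟨x, hx, hx'⟩
  rw [h1]
  refine isClosedMap_fst_of_compactSpace _ ?_
  refine IsClosed.inter ((my_closed k n).preimage continuous_snd) (hU.isClosed_compl.preimage ?_)
  refine continuous_pi fun i => ?_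
  exact continuous_eval.comp (continuous_fst.prodMk ((continuous_apply i).comp continuous_snd))

/-- uniform continuity -/
theorem my_unif (f : C(ℕ → Bool, ℂ)) {ε : ℝ} (hε : 0 < ε) :
    ∃ m : ℕ, ∀ η η' : ℕ → Bool, (∀ i < m, η i = η' i) → dist (f η) (f η') < ε := by
  have h1 := isCompact_univ.elim_directed_cover (X := (ℕ → Bool) × (ℕ → Bool))
    (fun m : ℕ => {p | ∃ i < m, p.1 i ≠ p.2 i} ∪ {p | dist (f p.1) (f p.2) < ε}) ?_ ?_ ?_
  · obtain ⟨m, hm⟩ := h1
    refine ⟨m, fun η η' h => ?_⟩
    rcases hm (mem_univ (η, η')) with h2 | h2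
    · obtain ⟨i, hi, hi'⟩ := h2
      exact absurd (h i hi) hi'
    · exact h2
  · intro m
    refine IsOpen.union ?_ ?_
    · have h1 : {p : (ℕ → Bool) × (ℕ → Bool) | ∃ i < m, p.1 i ≠ p.2 i} =
          ⋃ i ∈ Finset.range m, {p | p.1 i ≠ p.2 i} := by
        ext x
        simp
      rw [h1]
      refine isOpen_biUnion fun l _ => ?_
      have h2 : {x : (ℕ → Bool) × (ℕ → Bool) | x.1 l ≠ x.2 l} =
          (fun x : (ℕ → Bool) × (ℕ → Bool) => (x.1 l, x.2 l)) ⁻¹' {p | p.1 ≠ p.2} := rfl
      rw [h2]
      exact (isOpen_discrete _).preimage (by fun_prop)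
    · exact isOpen_lt (by fun_prop) continuous_const
  · rintro ⟨η, η'⟩ -
    rw [mem_iUnion]
    by_cases h : η = η'
    · refine ⟨0, Or.inr ?_⟩
      rw [h]
      simpa using hε
    · obtain ⟨i, hi⟩ := Function.ne_iff.mp h
      exact ⟨i + 1, Or.inl ⟨i, Nat.lt_succ_self i, hi⟩⟩
  · refine directed_of_isDirected_le fun m m' h => union_subset_union_left _ ?_
    rintro p ⟨i, hi, hi'⟩
    exact ⟨i, hi.trans_le h, hi'⟩

/-- near every tuple of numbers there is one all of whose subtuples are in a dense open set -/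
theorem my_dense_fin {M : Type} [Finite M] (k : ℕ) {U : Set (Fin k → ℂ)} (hU : IsOpen U)
    (hd : Dense U) :
    Dense {c : M → ℂ | ∀ s : Fin k → M, Function.Injective s → (fun i => c (s i)) ∈ U} := by
  classical
  have := Fintype.ofFinite M
  have h1 : {c : M → ℂ | ∀ s : Fin k → M, Function.Injective s → (fun i => c (s i)) ∈ U} =
      ⋂ s : {s : Fin k → M // Function.Injective s}, (LinearMap.funLeft ℂ ℂ s.1) ⁻¹' U := by
    ext c
    simp only [mem_ofPred_eq, mem_iInter, Subtype.forall, mem_preimage]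
    rfl
  rw [h1]
  refine dense_iInter_of_isOpen (fun s => ?_) fun s => ?_
  · exact hU.preimage (LinearMap.continuous_of_finiteDimensional _)
  · refine hd.preimage ?_
    exact LinearMap.isOpenMap_of_finiteDimensional _
      (LinearMap.funLeft_surjective_of_injective _ _ _ s.2)

/-- the condition on `f` for one dense open set and one level is dense -/
theorem my_dense (k n : ℕ) {U : Set (Fin k → ℂ)} (hU : IsOpen U) (hd : Dense U) :
    Dense {f : C(ℕ → Bool, ℂ) | ∀ x : Fin k → (ℕ → Bool),
      (∀ i j, i ≠ j → ∃ l < n, x i l ≠ x j l) → (fun i => f (x i)) ∈ U} := by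
  classical
  rw [Metric.dense_iff]
  intro f ε hε
  obtain ⟨m₀, hm₀⟩ := my_unif f (half_pos hε)
  obtain ⟨m, hm1, hm2⟩ : ∃ m, m₀ ≤ m ∧ n ≤ m := ⟨max m₀ n, le_max_left _ _, le_max_right _ _⟩
  obtain ⟨ex, hex⟩ : ∃ ex : (Fin m → Bool) → (ℕ → Bool), ∀ s (i : Fin m), ex s i = s i :=
    ⟨fun s i => if h : i < m then s ⟨i, h⟩ else false, fun s i => by simp⟩
  obtain ⟨c, hc, hc'⟩ := (my_dense_fin (M := Fin m → Bool) k hU hd).exists_dist_lt
    (fun s => f (ex s)) (half_pos hε)
  refine ⟨⟨fun η => c fun i : Fin m => η i, ?_⟩, ?_, ?_⟩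
  · exact continuous_of_discreteTopology.comp (continuous_pi fun i => continuous_apply _)
  · rw [mem_ball, ContinuousMap.dist_lt_iff hε]
    intro η
    have h1 : dist (f (ex fun i : Fin m => η i)) (f η) < ε / 2 := by
      refine hm₀ _ _ fun i hi => ?_
      exact hex _ ⟨i, hi.trans_le hm1⟩
    have h2 : dist (f (ex fun i : Fin m => η i)) (c fun i : Fin m => η i) < ε / 2 :=
      (dist_le_pi_dist (fun s => f (ex s)) c fun i : Fin m => η i).trans_lt hc'
    have h3 := dist_triangle_left (c fun i : Fin m => η i) (f η) (f (ex fun i : Fin m => η i))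
    show dist (c fun i : Fin m => η i) (f η) < ε
    linarith
  · intro x hx
    refine hc (fun i => fun j : Fin m => x i j) fun i j hij => ?_
    by_contra hne
    obtain ⟨l, hl, hl'⟩ := hx i j hne
    exact hl' (congrFun hij ⟨l, hl.trans_le hm2⟩)

/-- for a meagre set almost all `f` are good -/
theorem my_residual (k : ℕ) {N : Set (Fin k → ℂ)} (hN : IsMeagre N) :
    ∀ᶠ f : C(ℕ → Bool, ℂ) in residual _, ∀ x : Fin k → (ℕ → Bool), Function.Injective x →
      (fun i => f (x i)) ∉ N := by
  obtain ⟨S, hS1, hS2, hS3, hS4⟩ := mem_residual_iff.mp (hN : Nᶜ ∈ residual _)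
  have h1 : ∀ U ∈ S, ∀ n : ℕ, ∀ᶠ f : C(ℕ → Bool, ℂ) in residual _, ∀ x : Fin k → (ℕ → Bool),
      (∀ i j, i ≠ j → ∃ l < n, x i l ≠ x j l) → (fun i => f (x i)) ∈ U := fun U hU n =>
    residual_of_dense_open (my_open k n (hS1 U hU)) (my_dense k n (hS1 U hU) (hS2 U hU))
  have h2 : ∀ᶠ f : C(ℕ → Bool, ℂ) in residual _, ∀ U ∈ S, ∀ n : ℕ, ∀ x : Fin k → (ℕ → Bool),
      (∀ i j, i ≠ j → ∃ l < n, x i l ≠ x j l) → (fun i => f (x i)) ∈ U :=
    (eventually_countable_ball hS3).2 fun U hU => eventually_countable_forall.2 fun n => h1 U hU n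
  filter_upwards [h2] with f hf x hx
  refine hS4 fun U hU => ?_
  have h3 : ∀ p : Fin k × Fin k, ∃ l : ℕ, p.1 ≠ p.2 → x p.1 l ≠ x p.2 l := by
    rintro ⟨i, j⟩
    by_cases h : i = j
    · exact ⟨0, fun h' => absurd h h'⟩
    · obtain ⟨l, hl⟩ := Function.ne_iff.mp (hx.ne h)
      exact ⟨l, fun _ => hl⟩
  choose l hl using h3
  refine hf U hU ((Finset.univ.sup l) + 1) x fun i j hij => ⟨l (i, j), ?_, hl (i, j) hij⟩
  exact Nat.lt_succ_of_le (Finset.le_sup (Finset.mem_univ _))

/-- the diagonal is meagre -/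
theorem my_diag : IsMeagre {c : Fin 2 → ℂ | c 0 = c 1} := by
  have h1 : ({c : Fin 2 → ℂ | c 0 = c 1})ᶜ =
      (LinearMap.proj (R := ℂ) (φ := fun _ : Fin 2 => ℂ) 0 -
        LinearMap.proj (R := ℂ) (φ := fun _ : Fin 2 => ℂ) 1) ⁻¹' {0}ᶜ := by
    ext c
    simp [sub_eq_zero]
  show ({c : Fin 2 → ℂ | c 0 = c 1})ᶜ ∈ residual _
  rw [h1]
  refine residual_of_dense_open ?_ ?_
  · exact isOpen_compl_singleton.preimage (LinearMap.continuous_of_finiteDimensional _)
  · refine (dense_compl_singleton (0 : ℂ)).preimage ?_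
    refine LinearMap.isOpenMap_of_finiteDimensional _ fun z => ⟨![z, 0], ?_⟩
    simp

theorem mycielski (N : (k : ℕ) → Set (Pt k)) (hN : ∀ k, 1 ≤ k → IsMeagre (N k)) {V : Set ℂ}
    (hV : IsOpen V) (hne : V.Nonempty) :
    ∃ f : (ℕ → Bool) → ℂ, Continuous f ∧ Function.Injective f ∧ (∀ η, f η ∈ V) ∧
      ∀ k : ℕ, 1 ≤ k → ∀ x : Fin k → (ℕ → Bool), Function.Injective x →
        (fun i => f (x i)) ∉ N k := by
  obtain ⟨v, hv⟩ := hne
  obtain ⟨r, hr, hrV⟩ := Metric.isOpen_iff.mp hV v hv
  have h1 : ∀ᶠ f : C(ℕ → Bool, ℂ) in residual _, (∀ k : ℕ, 1 ≤ k → ∀ x : Fin k → (ℕ → Bool),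
      Function.Injective x → (fun i => f (x i)) ∉ N k) ∧
      ∀ x : Fin 2 → (ℕ → Bool), Function.Injective x → ¬ f (x 0) = f (x 1) := by
    refine Eventually.and ?_ (my_residual 2 my_diag)
    refine eventually_countable_forall.2 fun k => ?_
    by_cases hk : 1 ≤ k
    · filter_upwards [my_residual k (hN k hk)] with f hf _
      exact hf
    · exact Eventually.of_forall fun f h => absurd h hk
  obtain ⟨f, hf, hf1, hf2⟩ := (dense_of_mem_residual h1).inter_open_nonempty
    (ball (ContinuousMap.const (ℕ → Bool) v) r) isOpen_ball ⟨_, mem_ball_self hr⟩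
  refine ⟨f, f.continuous, ?_, fun η => hrV ?_, hf1⟩
  · intro a b hab
    by_contra hne
    refine hf2 ![a, b] ?_ (by simpa using hab)
    intro i j hij
    fin_cases i <;> fin_cases j <;> simp_all [eq_comm]
  · rw [mem_ball] at hf ⊢
    exact ((ContinuousMap.dist_lt_iff hr).mp hf) η

theorem perfect_range {f : (ℕ → Bool) → ℂ} (hf : Continuous f) (hi : Function.Injective f) :
    Perfect (range f) := by
  refine ⟨(isCompact_range hf).isClosed, ?_⟩
  rintro _ ⟨η, rfl⟩
  rw [accPt_iff_frequently]
  obtain ⟨g, hg⟩ : ∃ g : ℕ → (ℕ → Bool), ∀ n, g n = Function.update η n (!(η n)) :=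
    ⟨_, fun n => rfl⟩
  have h1 : Tendsto g atTop (𝓝 η) := by
    rw [tendsto_pi_nhds]
    intro i
    refine tendsto_const_nhds.congr' ?_
    filter_upwards [eventually_gt_atTop i] with n hn
    rw [hg, Function.update_of_ne (by omega)]
  have h2 : Tendsto (fun n => f (g n)) atTop (𝓝 (f η)) := (hf.tendsto η).comp h1
  refine h2.frequently (Frequently.of_forall fun n => ⟨?_, mem_range_self _⟩)
  intro h
  have h3 := congrFun (hi h) n
  rw [hg, Function.update_self] at h3
  cases hη : η n <;> simp [hη] at h3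

end Pool.Agent.T2H96.XP
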