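import Pool.Agent.T2H96.XP.ClosureK
import Pool.Agent.T2H96.XP.MY

/-!
Isomorphisms which preserve the guards; generic tuples; perfect sets of total indiscernibles.
-/

set_option autoImplicit false

namespace Pool.Agent.T2H96.XP

open Set Filter Topology Metric
open scoped Cardinal
open Pool.Agent.TH735.QM Pool.Agent.TH735.FO Pool.Agent.TH735.BF Pool.Agent.T2H96.XS
open Pool.Agent.T2H96.XE

/-- the set of all pairs with `S y x`, as a subset of `ℂ^{m+n}` -/
def relS {m n : ℕ} (S : Pt m → Pt n → Prop) : Set (Pt (m + n)) :=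
  {v | S (fun a => v (Fin.castAdd n a)) (fun b => v (Fin.natAdd m b))}

theorem GrdK.cq {m n : ℕ} {S : Pt m → Pt n → Prop} (h : GrdK S) : CQ (m + n) (relS S) := by
  intro U hU hUc γ hγ
  have h1 : AnalyticOnNhd ℂ (fun t => (fun a => γ t (Fin.castAdd n a) : Pt m)) U :=
    fun t ht => analyticAt_pi_iff.2 fun a => (analyticAt_pi_iff.1 (hγ t ht)) _
  have h2 : AnalyticOnNhd ℂ (fun t => (fun b => γ t (Fin.natAdd m b) : Pt n)) U :=
    fun t ht => analyticAt_pi_iff.2 fun b => (analyticAt_pi_iff.1 (hγ t ht)) _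
  exact h.cur U hU hUc _ h1 _ h2

theorem GrdK.meas {m n : ℕ} {S : Pt m → Pt n → Prop} (h : GrdK S) :
    MeasurableSet (relS S) := by
  set S' : Set (Pt m × Pt n) := {q | S q.1 q.2} with hS'
  have hopen : IsOpen (S' ∪ interior S'ᶜ) := by
    rw [isOpen_iff_mem_nhds]
    rintro ⟨y, x⟩ (hq | hq)
    · obtain ⟨φ, hφ, hφx, hev⟩ := h.gd y x hq
      have e1 : ∀ᶠ q : Pt m × Pt n in 𝓝 (y, x), AnalyticAt ℂ φ q.1 :=
        (continuousAt_fst (p := (y, x))).eventually hφ.eventually_analyticAt
      filter_upwards [hev.eventually_nhds, e1] with q' h1 h2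
      by_cases hP : S q'.1 q'.2
      · exact Or.inl hP
      · right
        have h3 : q'.2 ≠ φ q'.1 := fun h4 => hP (h1.self_of_nhds.2 h4)
        have h4 : ∀ᶠ q'' : Pt m × Pt n in 𝓝 q', q''.2 ≠ φ q''.1 := by
          have h5 : ContinuousAt (fun q'' : Pt m × Pt n => (q''.2, φ q''.1)) q' :=
            continuousAt_snd.prodMk (ContinuousAt.comp (f := fun q'' : Pt m × Pt n => q''.1)
              (x := q') h2.continuousAt continuousAt_fst)
          exact h5.eventually (isClosed_diagonal.isOpen_compl.mem_nhds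
            (x := (q'.2, φ q'.1)) h3)
        rw [mem_interior_iff_mem_nhds]
        filter_upwards [h1, h4] with q'' h5 h6
        exact fun h7 => h6 (h5.1 h7)
    · exact mem_of_superset (isOpen_interior.mem_nhds hq) subset_union_right
  have e : S' = (S' ∪ interior S'ᶜ) \ interior S'ᶜ := by
    ext q
    constructor
    · intro hq
      exact ⟨Or.inl hq, fun h' => interior_subset h' hq⟩
    · rintro ⟨hq | hq, h'⟩
      · exact hq
      · exact absurd hq h'
  have h1 : MeasurableSet S' := by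
    rw [e]
    exact hopen.measurableSet.diff isOpen_interior.measurableSet
  have h2 : Continuous (fun v : Pt (m + n) => ((fun a => v (Fin.castAdd n a) : Pt m),
      (fun b => v (Fin.natAdd m b) : Pt n))) :=
    (continuous_pi fun a => continuous_apply _).prodMk (continuous_pi fun b => continuous_apply _)
  exact h2.measurable h1

/-- `σ` is an isomorphism between the closures of `A ∪ {p j}` and of `A ∪ {p' j}`. -/
structure IsIso {m n : ℕ → ℕ} (S : (k : ℕ) → Pt (m k) → Pt (n k) → Prop) {l : ℕ → ℕ}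
    (R : (j : ℕ) → Set (Fin (l j) → ℂ)) (A : Set ℂ) {J : Type} (p p' : J → ℂ)
    (σ : {z // Cl S (A ∪ range p) z} ≃ {z // Cl S (A ∪ range p') z}) : Prop where
  /-- it moves `p j` to `p' j` -/
  move : ∀ j, (σ ⟨p j, Cl.base (Or.inr ⟨j, rfl⟩)⟩ : ℂ) = p' j
  /-- it fixes the closure of `A` pointwise -/
  fix : ∀ z, ∀ hz : Cl S A z, (σ ⟨z, hz.mono subset_union_left⟩ : ℂ) = z
  /-- it respects the relations `R j` -/
  rel : ∀ j, ∀ v : Fin (l j) → {z // Cl S (A ∪ range p) z},
    (fun a => (v a : ℂ)) ∈ R j ↔ (fun a => (σ (v a) : ℂ)) ∈ R j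
  /-- it respects the relations `S k` -/
  solve : ∀ k, ∀ y : Fin (m k) → {z // Cl S (A ∪ range p) z},
    ∀ x : Fin (n k) → {z // Cl S (A ∪ range p) z},
    S k (fun a => y a) (fun b => x b) ↔ S k (fun a => σ (y a)) (fun b => σ (x b))

variable {m n : ℕ → ℕ} {S : (k : ℕ) → Pt (m k) → Pt (n k) → Prop} {l : ℕ → ℕ}
  {R : (j : ℕ) → Set (Fin (l j) → ℂ)} {A : Set ℂ}

theorem iso_all (hS : ∀ k, GrdK (S k)) (hR : ∀ j, CQ (l j) (R j))
    (hRm : ∀ j, MeasurableSet (R j)) (hA : A.Countable) :
    ∃ N : (k : ℕ) → Set (Pt k), (∀ k, IsMeagre (N k)) ∧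
      ∀ (J : Type) [Countable J] (p p' : J → ℂ),
        (∀ (k : ℕ) (ι : Fin k → J), 1 ≤ k → Function.Injective ι → (fun a => p (ι a)) ∉ N k) →
        (∀ (k : ℕ) (ι : Fin k → J), 1 ≤ k → Function.Injective ι → (fun a => p' (ι a)) ∉ N k) →
        ∃ σ, IsIso S R A p p' σ := by
  obtain ⟨N, hN, h⟩ := closuresK hS (τ := ℕ ⊕ ℕ)
    (l := Sum.elim l (fun k => m k + n k))
    (R := fun j => match j with
      | Sum.inl j => R j
      | Sum.inr k => relS (S k))
    (by
      rintro (j | k)
      · exact hR j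
      · exact (hS k).cq)
    (by
      rintro (j | k)
      · exact hRm j
      · exact (hS k).meas) hA
  refine ⟨N, hN, ?_⟩
  intro J hJ p p' hp hp'
  obtain ⟨σ, h1, h2, h3⟩ := h J p p' hp hp'
  refine ⟨σ, h1, h2, fun j v => h3 (Sum.inl j) v, ?_⟩
  intro k y x
  have h4 := h3 (Sum.inr k) (Fin.append y x)
  have e1 : ∀ (v : Fin (m k) → {z // Cl S (A ∪ range p) z})
      (w : Fin (n k) → {z // Cl S (A ∪ range p) z}) (f : {z // Cl S (A ∪ range p) z} → ℂ),
      (fun a => f (Fin.append v w a)) ∈ relS (S k) ↔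
        S k (fun a => f (v a)) (fun b => f (w b)) := by
    intro v w f
    show S k (fun a => f (Fin.append v w (Fin.castAdd (n k) a)))
      (fun b => f (Fin.append v w (Fin.natAdd (m k) b))) ↔ _
    simp only [Fin.append_left, Fin.append_right]
  exact ((e1 y x (fun z => (z : ℂ))).symm.trans h4).trans (e1 y x (fun z => (σ z : ℂ)))

/-- finite character -/
theorem Cl.finite {B : Set ℂ} {z : ℂ} (hz : Cl S (A ∪ B) z) :
    ∃ F : Set ℂ, F.Finite ∧ F ⊆ B ∧ Cl S (A ∪ F) z := by
  induction hz with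
  | @base z hz =>
    rcases hz with hz | hz
    · exact ⟨∅, finite_empty, empty_subset _, Cl.base (Or.inl hz)⟩
    · exact ⟨{z}, finite_singleton z, singleton_subset_iff.2 hz, Cl.base (Or.inr rfl)⟩
  | @sol k y x hy hx i ih =>
    choose F hF hFB hFy using ih
    refine ⟨⋃ a, F a, finite_iUnion hF, iUnion_subset hFB, ?_⟩
    refine Cl.sol (fun a => (hFy a).mono ?_) hx i
    exact union_subset_union_right _ (subset_iUnion F a)

/-- isomorphisms respect closures of subsets -/
theorem IsIso.maps {J : Type} {p p' : J → ℂ}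
    {σ : {z // Cl S (A ∪ range p) z} ≃ {z // Cl S (A ∪ range p') z}} (h : IsIso S R A p p' σ)
    {F : Set ℂ} (hF : ∀ z ∈ F, ∃ j, p j = z ∧ p' j = z) {z : ℂ} (hz : Cl S (A ∪ F) z) :
    ∀ hz' : Cl S (A ∪ range p) z, Cl S (A ∪ F) (σ ⟨z, hz'⟩ : ℂ) := by
  induction hz with
  | @base z hz =>
    intro hz'
    rcases hz with hz | hz
    · have h1 := h.fix z (Cl.base hz)
      rw [h1]
      exact Cl.base (Or.inl hz)
    · obtain ⟨j, rfl, hj⟩ := hF z hz
      have h1 := h.move j
      rw [h1, hj]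
      exact Cl.base (Or.inr hz)
  | @sol k y x hy hx i ih =>
    intro hz'
    have hsub : A ∪ F ⊆ A ∪ range p := by
      apply union_subset_union_right
      intro z hz
      obtain ⟨j, hj, -⟩ := hF z hz
      exact ⟨j, hj⟩
    have hy' : ∀ a, Cl S (A ∪ range p) (y a) := fun a => (hy a).mono hsub
    have hx' : ∀ b, Cl S (A ∪ range p) (x b) := fun b => Cl.sol hy' hx b
    have h1 := (h.solve k (fun a => ⟨y a, hy' a⟩) (fun b => ⟨x b, hx' b⟩)).1 hx
    exact Cl.sol (fun a => ih a (hy' a)) h1 i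

theorem generic_comeagre {N : (k : ℕ) → Set (Pt k)} (hN : ∀ k, IsMeagre (N k)) (k : ℕ) :
    IsMeagre {p : Pt k | ∀ (k' : ℕ) (ι : Fin k' → Fin k), 1 ≤ k' → Function.Injective ι →
      (fun a => p (ι a)) ∉ N k'}ᶜ := by
  have h1 : {p : Pt k | ∀ (k' : ℕ) (ι : Fin k' → Fin k), 1 ≤ k' → Function.Injective ι →
      (fun a => p (ι a)) ∉ N k'}ᶜ ⊆ ⋃ (x : Σ k' : ℕ, {ι : Fin k' → Fin k // Function.Injective ι}),
        (fun p : Pt k => (fun a => p (x.2.1 a) : Pt x.1)) ⁻¹' N x.1 := by
    intro p hp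
    simp only [mem_compl_iff, Set.mem_ofPred_eq, not_forall, not_not] at hp
    obtain ⟨k', ι, -, hι, hmem⟩ := hp
    exact mem_iUnion.2 ⟨⟨k', ι, hι⟩, hmem⟩
  refine IsMeagre.mono h1 (isMeagre_iUnion fun x => ?_)
  set f : Pt k →L[ℂ] Pt x.1 := ContinuousLinearMap.pi fun a =>
    ContinuousLinearMap.proj (R := ℂ) (φ := fun _ : Fin k => ℂ) (x.2.1 a) with hf
  have hsurj : Function.Surjective f := by
    intro v
    refine ⟨Function.extend x.2.1 v 0, ?_⟩
    funext a
    show Function.extend x.2.1 v 0 (x.2.1 a) = v a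
    exact x.2.2.extend_apply v 0 a
  exact (hN x.1).preimage_of_isOpenMap f.continuous (f.isOpenMap hsurj)

/-- a perfect set of total indiscernibles -/
theorem indisc (hS : ∀ k, GrdK (S k)) (hR : ∀ j, CQ (l j) (R j))
    (hRm : ∀ j, MeasurableSet (R j)) (hA : A.Countable) :
    (∀ k, ∃ G : Set (Pt k), IsMeagre Gᶜ ∧ ∀ p ∈ G, ∀ p' ∈ G, ∃ σ, IsIso S R A p p' σ) ∧
    ∀ V : Set ℂ, IsOpen V → V.Nonempty → ∃ P ⊆ V, Perfect P ∧ IsCompact P ∧ P.Nonempty ∧
      (∀ p ∈ P, ¬ Cl S (A ∪ (P \ {p})) p) ∧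
      ∀ (J : Type) [Countable J] (p p' : J → ℂ), Function.Injective p → Function.Injective p' →
        (∀ j, p j ∈ P) → (∀ j, p' j ∈ P) → ∃ σ, IsIso S R A p p' σ := by
  obtain ⟨N, hN, h⟩ := iso_all hS hR hRm hA
  refine ⟨?_, ?_⟩
  · intro k
    refine ⟨_, generic_comeagre hN k, ?_⟩
    intro p hp p' hp'
    exact h (Fin k) p p' hp hp'
  · intro V hV hne
    obtain ⟨f, hf, hfi, hfV, hfN⟩ := mycielski N (fun k _ => hN k) hV hne
    have hGe : ∀ (J : Type) (p : J → ℂ), Function.Injective p → (∀ j, p j ∈ range f) →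
        ∀ (k : ℕ) (ι : Fin k → J), 1 ≤ k → Function.Injective ι → (fun a => p (ι a)) ∉ N k := by
      intro J p hpi hpP k ι hk hι
      choose x hx using hpP
      have h1 : Function.Injective fun a => x (ι a) := by
        intro a b hab
        apply hι
        apply hpi
        rw [← hx, ← hx]
        exact congrArg f hab
      have h2 := hfN k hk (fun a => x (ι a)) h1
      simp only [hx] at h2
      exact h2
    have hiso : ∀ (J : Type) [Countable J] (p p' : J → ℂ), Function.Injective p →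
        Function.Injective p' → (∀ j, p j ∈ range f) → (∀ j, p' j ∈ range f) →
        ∃ σ, IsIso S R A p p' σ := by
      intro J _ p p' hp hp' hpP hpP'
      exact h J p p' (hGe J p hp hpP) (hGe J p' hp' hpP')
    have hunc : ¬ (range f).Countable := by
      intro hc
      have h1 : (univ : Set (ℕ → Bool)).Countable := by
        have := hc.preimage_of_injOn (f := f) hfi.injOn
        rwa [preimage_range] at this
      have h2 : Countable (ℕ → Bool) := countable_univ_iff.1 h1
      have h3 : #(ℕ → Bool) ≤ ℵ₀ := Cardinal.mk_le_aleph0_iff.2 h2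
      rw [← Cardinal.power_def, Cardinal.mk_bool, Cardinal.mk_nat] at h3
      exact absurd h3 (not_le.2 (Cardinal.cantor _))
    refine ⟨range f, ?_, perfect_range hf hfi, isCompact_range hf, ⟨f default, default, rfl⟩, ?_,
      hiso⟩
    · rintro _ ⟨η, rfl⟩
      exact hfV η
    · intro p hp hcl
      obtain ⟨F, hF, hFP, hFp⟩ := Cl.finite hcl
      have hFc : F.Countable := hF.countable
      have hc := cl_countable (fun k => (hS k).toGrd) (hA.union hFc)
      obtain ⟨p', hp', hp'2⟩ : ∃ p' ∈ range f, p' ∉ {z | Cl S (A ∪ F) z} := by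
        by_contra hcon
        push Not at hcon
        exact hunc (hc.mono hcon)
      have hFc' : Countable F := hFc.to_subtype
      set q : Option F → ℂ := fun o => o.elim p (fun x => (x : ℂ)) with hq
      set q' : Option F → ℂ := fun o => o.elim p' (fun x => (x : ℂ)) with hq'
      have hinj : ∀ r : ℂ, r ∉ F → Function.Injective
          (fun o : Option F => o.elim r (fun x => (x : ℂ))) := by
        rintro r hr (_ | a) (_ | b) hab
        · rfl
        · exact absurd (by rw [show r = b from hab]; exact b.2) hr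
        · exact absurd (by rw [show r = a from hab.symm]; exact a.2) hr
        · rw [show a = b from Subtype.ext hab]
      have hpF : p ∉ F := fun h' => (hFP h').2 rfl
      have hp'F : p' ∉ F := fun h' => hp'2 (Cl.base (Or.inr h'))
      obtain ⟨σ, hσ⟩ := hiso (Option F) q q' (hinj p hpF) (hinj p' hp'F)
        (by
          rintro (_ | a)
          · exact hp
          · exact (hFP a.2).1)
        (by
          rintro (_ | a)
          · exact hp'
          · exact (hFP a.2).1)
      have h1 := hσ.maps (F := F) (fun z hz => ⟨some ⟨z, hz⟩, rfl, rfl⟩) hFp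
        (Cl.base (Or.inr ⟨none, rfl⟩))
      have h2 := hσ.move none
      apply hp'2
      show Cl S (A ∪ F) p'
      have h3 : (σ ⟨q none, Cl.base (Or.inr ⟨none, rfl⟩)⟩ : ℂ) = p' := h2
      rw [← h3]
      exact h1

end Pool.Agent.T2H96.XP
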