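import Pool.Agent.T2H96.XP.Defs

/-!
PACKAGE KU (60-80 min). A Borel subset of a connected open set `U ⊆ ℂ^k` whose traces on lines parallel to the
coordinate axes are countable or cocountable is meagre or comeagre in `U`.

Paper proof.

1. (Half of the theorem of Kuratowski and Ulam.) If `M ⊆ ℂ^k` is meagre then for all `x` outside of a meagre
subset of `ℂ^k` the set `{z | update x j z ∈ M}` is meagre in `ℂ`. It suffices to show for dense open `O` that
`{x | {z | update x j z ∈ O} is dense}` is comeagre. For a countable basis `V_n` of nonempty open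
subsets of `ℂ`, the set `{x | ∃ z ∈ V_n, update x j z ∈ O}` is open (continuity) and dense (given `x` and `ε`, the
nonempty open set of all `y` with `y_j ∈ V_n`, `|y_i - x_i| < ε` for `i ≠ j` meets `O` in `y`; then `update y j (x j)` is
near `x`).

2. `E` has the Baire property (`MeasurableSet.baireMeasurableSet`, `BaireMeasurableSet.residualEq_isOpen` in
Mathlib.Topology.Baire.BaireMeasurable): there is an open `O` such that `M = {x | x ∈ E ↔ x ∉ O}` is meagre. If `O ∩ U`
is empty then `U ∩ E ⊆ M`. Otherwise we show that `O` is dense in `U`; then `U \ E ⊆ M ∪ (U \ O)` and `U \ O` is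
nowhere dense, so `U \ E` is meagre.

3. By connectedness of `U` (the set `closure O ∩ U` is closed in `U`, nonempty; it is open by the following) it is
enough to show: if `B = ball c r ⊆ U` (a polydisc) and `O ∩ B` is nonempty then `O` is dense in `B`. Let
`V = ball v ε ⊆ B`. Claim for `i = 0, …, k`: there is `x ∈ O ∩ B` with `|x_l - v_l| < ε` for all `l < i` (for `i = k` this is the
assertion). Let `x` be given for `i = j`, and let `Q = ball x η` be contained in `O`, in `B`, and with
`|y_l - v_l| < ε` for `l < j`, `y ∈ Q`. By 1 there is `x' ∈ Q` such that `{z | update x' j z ∈ M}` is meagre (open balls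
are not meagre: `not_isMeagre_of_isOpen`). The trace `{z ∈ ball (c j) r | update x' j z ∈ E}` contains the ball `ball (x j) η` up to
a meagre set, so it is not countable (a countable subset of `ℂ` is meagre); so by `hl` it is cocountable in
`ball (c j) r`. Hence there is `z` with `|z - v_j| < ε`, `z ∈ ball (c j) r` and `update x' j z ∈ E \ M`, thus `∈ O`.
-/

set_option autoImplicit false

namespace Pool.Agent.T2H96.XP

open Set Filter Topology Metric
open Pool.Agent.TH735.QM Pool.Agent.T2H96.XS

namespace KU

theorem cont_update {k : ℕ} (x : Pt k) (j : Fin k) : Continuous fun z : ℂ => Function.update x j z :=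
  continuous_const.update j continuous_id

theorem fibre_dense {k : ℕ} (j : Fin k) {O : Set (Pt k)} (hO : IsOpen O) (hd : Dense O) :
    ∀ᶠ x in residual (Pt k), Dense {z : ℂ | Function.update x j z ∈ O} := by
  have key : ∀ V ∈ TopologicalSpace.countableBasis ℂ,
      ∀ᶠ x in residual (Pt k), ∃ z ∈ V, Function.update x j z ∈ O := by
    intro V hV
    have hVo : IsOpen V := TopologicalSpace.isOpen_of_mem_countableBasis hV
    have hVn : V.Nonempty := TopologicalSpace.nonempty_of_mem_countableBasis hV
    refine residual_of_dense_open ?_ ?_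
    · have : {x : Pt k | ∃ z ∈ V, Function.update x j z ∈ O} =
          ⋃ z ∈ V, (fun x : Pt k => Function.update x j z) ⁻¹' O := by
        ext x; simp
      rw [this]
      refine isOpen_biUnion fun z _ => hO.preimage (continuous_id.update j continuous_const)
    · rw [Metric.dense_iff]
      intro x ε hε
      obtain ⟨z₀, hz₀⟩ := hVn
      have hW : IsOpen {y : Pt k | y j ∈ V ∧ ∀ i, i ≠ j → dist (y i) (x i) < ε} := by
        have h2 : {y : Pt k | y j ∈ V ∧ ∀ i, i ≠ j → dist (y i) (x i) < ε} =
            {y : Pt k | y j ∈ V} ∩ ⋂ i, {y : Pt k | i ≠ j → dist (y i) (x i) < ε} := by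
          ext y; simp
        rw [h2]
        refine (hVo.preimage (continuous_apply j)).inter (isOpen_iInter_of_finite fun i => ?_)
        by_cases hi : i = j
        · simp [hi]
        · have h3 : {y : Pt k | i ≠ j → dist (y i) (x i) < ε} = {y : Pt k | dist (y i) (x i) < ε} := by
            ext y; simp [hi]
          rw [h3]
          exact isOpen_lt ((continuous_apply i).dist continuous_const) continuous_const
      have hWn : {y : Pt k | y j ∈ V ∧ ∀ i, i ≠ j → dist (y i) (x i) < ε}.Nonempty := by
        refine ⟨Function.update x j z₀, by simpa using hz₀, fun i hi => ?_⟩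
        simp [Function.update_of_ne hi, hε]
      obtain ⟨y, ⟨hy1, hy2⟩, hyO⟩ := hd.inter_open_nonempty _ hW hWn
      refine ⟨Function.update y j (x j), ?_, y j, hy1, ?_⟩
      · rw [mem_ball, dist_pi_lt_iff hε]
        intro i
        by_cases hi : i = j
        · subst hi; simpa using hε
        · simpa [Function.update_of_ne hi] using hy2 i hi
      · simpa using hyO
  have h2 : ∀ᶠ x in residual (Pt k), ∀ V ∈ TopologicalSpace.countableBasis ℂ,
      ∃ z ∈ V, Function.update x j z ∈ O :=
    (eventually_countable_ball (TopologicalSpace.countable_countableBasis ℂ)).2 key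
  filter_upwards [h2] with x hx
  rw [(TopologicalSpace.isBasis_countableBasis ℂ).dense_iff]
  intro V hV _
  obtain ⟨z, h3, h4⟩ := hx V hV
  exact ⟨z, h3, h4⟩

theorem fibre_meagre {k : ℕ} (j : Fin k) {M : Set (Pt k)} (hM : IsMeagre M) :
    ∀ᶠ x in residual (Pt k), IsMeagre {z : ℂ | Function.update x j z ∈ M} := by
  rw [IsMeagre, mem_residual_iff] at hM
  obtain ⟨S, h1, h2, h3, h4⟩ := hM
  have h5 : ∀ᶠ x in residual (Pt k), ∀ t ∈ S, Dense {z : ℂ | Function.update x j z ∈ t} :=
    (eventually_countable_ball h3).2 fun t ht => fibre_dense j (h1 t ht) (h2 t ht)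
  filter_upwards [h5] with x hx
  rw [IsMeagre]
  have h6 : ⋂ t ∈ S, {z : ℂ | Function.update x j z ∈ t} ∈ residual ℂ :=
    (countable_bInter_mem h3).2 fun t ht =>
      residual_of_dense_open ((h1 t ht).preimage (cont_update x j)) (hx t ht)
  refine mem_of_superset h6 ?_
  intro z hz
  simp only [mem_iInter, mem_ofPred_eq] at hz
  exact h4 (mem_sInter.2 hz)

theorem countable_meagre {s : Set ℂ} (hs : s.Countable) : IsMeagre s := by
  have : s = ⋃ z ∈ s, {z} := by simp
  rw [this]
  refine isMeagre_biUnion hs fun z _ => ?_
  rw [IsMeagre]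
  exact residual_of_dense_open isOpen_compl_singleton (dense_compl_singleton z)

theorem core {k : ℕ} {O E : Set (Pt k)} (hO : IsOpen O)
    (hM : IsMeagre {x | ¬ (x ∈ E ↔ x ∈ O)}) (c : Pt k) (r : ℝ)
    (hl : ∀ x ∈ ball c r, ∀ j, QmOn (ball (c j) r) {z | Function.update x j z ∈ E})
    (hne : (O ∩ ball c r).Nonempty) : ball c r ⊆ closure O := by
  intro v hv
  have hr : 0 < r := pos_of_mem_ball hv
  rw [Metric.mem_closure_iff]
  intro ε hε
  have claim : ∀ i : ℕ, i ≤ k → ∃ x ∈ O ∩ ball c r, ∀ l : Fin k, l.val < i → dist (x l) (v l) < ε := by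
    intro i
    induction i with
    | zero =>
      intro _
      obtain ⟨x, hx⟩ := hne
      exact ⟨x, hx, fun l hl => absurd hl (Nat.not_lt_zero _)⟩
    | succ i ih =>
      intro hi
      obtain ⟨x, hx, hxl⟩ := ih (by omega)
      set j : Fin k := ⟨i, by omega⟩ with hj
      set W : Set (Pt k) := (O ∩ ball c r) ∩ {y | ∀ l : Fin k, l.val < i → dist (y l) (v l) < ε} with hW
      have hWo : IsOpen W := by
        refine (hO.inter isOpen_ball).inter ?_
        have h2 : {y : Pt k | ∀ l : Fin k, l.val < i → dist (y l) (v l) < ε} =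
            ⋂ l : Fin k, {y : Pt k | l.val < i → dist (y l) (v l) < ε} := by
          ext y; simp
        rw [h2]
        refine isOpen_iInter_of_finite fun l => ?_
        by_cases hl : l.val < i
        · simp only [hl, forall_const]
          exact isOpen_lt ((continuous_apply l).dist continuous_const) continuous_const
        · simp [hl]
      have hd : Dense {x : Pt k | IsMeagre {z : ℂ | Function.update x j z ∈ {x | ¬ (x ∈ E ↔ x ∈ O)}}} :=
        dense_of_mem_residual (fibre_meagre j hM)
      obtain ⟨x', hx'W, hx'm⟩ := hd.inter_open_nonempty W hWo ⟨x, hx, hxl⟩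
      have hx'B : x' ∈ ball c r := hx'W.1.2
      have hcoord : ∀ z, z ∈ ball (c j) r → Function.update x' j z ∈ ball c r := by
        intro z hz
        rw [mem_ball, dist_pi_lt_iff hr] at hx'B ⊢
        intro l
        by_cases hlj : l = j
        · subst hlj; simpa using hz
        · simpa [Function.update_of_ne hlj] using hx'B l
      rcases hl x' hx'B j with h | h
      · exfalso
        have hN : IsOpen {z : ℂ | Function.update x' j z ∈ W} := hWo.preimage (cont_update x' j)
        have hNn : {z : ℂ | Function.update x' j z ∈ W}.Nonempty := ⟨x' j, by simpa using hx'W⟩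
        refine not_isMeagre_of_isOpen hN hNn (((countable_meagre h).union hx'm).mono ?_)
        intro z hz
        have hz1 : Function.update x' j z ∈ O := hz.1.1
        have hz2 : Function.update x' j z ∈ ball c r := hz.1.2
        by_cases hE : Function.update x' j z ∈ E
        · left
          refine ⟨?_, hE⟩
          rw [mem_ball, dist_pi_lt_iff hr] at hz2
          simpa using hz2 j
        · right
          simp only [mem_ofPred_eq]
          tauto
      · have hG : IsOpen (ball (v j) ε ∩ ball (c j) r) := isOpen_ball.inter isOpen_ball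
        have hGn : (ball (v j) ε ∩ ball (c j) r).Nonempty := by
          refine ⟨v j, mem_ball_self hε, ?_⟩
          rw [mem_ball, dist_pi_lt_iff hr] at hv
          exact hv j
        have hnot : ¬ (ball (v j) ε ∩ ball (c j) r) ⊆
            (ball (c j) r \ {z | Function.update x' j z ∈ E}) ∪
              {z : ℂ | Function.update x' j z ∈ {x | ¬ (x ∈ E ↔ x ∈ O)}} := fun hsub =>
          not_isMeagre_of_isOpen hG hGn (((countable_meagre h).union hx'm).mono hsub)
        rw [not_subset] at hnot
        obtain ⟨z, ⟨hz1, hz2⟩, hz3⟩ := hnot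
        rw [mem_union, not_or] at hz3
        obtain ⟨hz3, hz4⟩ := hz3
        have hzE : Function.update x' j z ∈ E := by
          by_contra hcon
          exact hz3 ⟨hz2, hcon⟩
        have hzO : Function.update x' j z ∈ O := by
          simp only [mem_ofPred_eq] at hz4
          tauto
        refine ⟨Function.update x' j z, ⟨hzO, hcoord z hz2⟩, fun l hl => ?_⟩
        by_cases hlj : l = j
        · subst hlj; simpa using hz1
        · rw [Function.update_of_ne hlj]
          refine hx'W.2 l ?_
          have : l.val ≠ i := fun h => hlj (Fin.ext h)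
          omega
  obtain ⟨x, hx, hxl⟩ := claim k le_rfl
  refine ⟨x, hx.1, ?_⟩
  rw [dist_comm, dist_pi_lt_iff hε]
  exact fun l => hxl l l.isLt

end KU

open KU in
theorem ku {k : ℕ} {U : Set (Pt k)} (hU : IsOpen U) (hUc : IsPreconnected U) {E : Set (Pt k)}
    (hE : MeasurableSet E)
    (hl : ∀ (c : Pt k) (r : ℝ), ball c r ⊆ U → ∀ x ∈ ball c r, ∀ j,
      QmOn (ball (c j) r) {z | Function.update x j z ∈ E}) : MgOn U E := by
  obtain ⟨O, hO, hEO⟩ := hE.residualEq_isOpen
  have hM : IsMeagre {x | ¬ (x ∈ E ↔ x ∈ O)} := by
    rw [IsMeagre]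
    filter_upwards [eventuallyEq_set.1 hEO] with x hx
    simpa using hx
  by_cases hne : (U ∩ O).Nonempty
  · right
    have hsub : U ⊆ closure O := by
      have h1 : U ⊆ interior (closure O) := by
        refine hUc.subset_of_closure_inter_subset isOpen_interior ?_ ?_
        · obtain ⟨x, h1, h2⟩ := hne
          exact ⟨x, h1, (hO.subset_interior_iff.2 subset_closure) h2⟩
        · rintro x ⟨hx1, hx2⟩
          have hx3 : x ∈ closure O := (closure_minimal interior_subset isClosed_closure) hx1
          obtain ⟨r, hr, hrU⟩ := Metric.isOpen_iff.1 hU x hx2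
          have h4 : ball x r ⊆ closure O := by
            refine core hO hM x r (fun y hy j => hl x r hrU y hy j) ?_
            obtain ⟨y, hy1, hy2⟩ := Metric.mem_closure_iff.1 hx3 r hr
            exact ⟨y, hy1, by rwa [mem_ball, dist_comm]⟩
          exact mem_interior.2 ⟨ball x r, h4, isOpen_ball, mem_ball_self hr⟩
      exact h1.trans interior_subset
    have h5 : IsMeagre {x | ¬ (x ∈ closure O ↔ x ∈ O)} := by
      rw [IsMeagre]
      filter_upwards [eventuallyEq_set.1 (closure_residualEq hO.isLocallyClosed)] with x hx
      simpa using hx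
    refine (hM.union h5).mono ?_
    rintro x ⟨hx1, hx2⟩
    have := hsub hx1
    simp only [mem_union, mem_ofPred_eq]
    tauto
  · left
    refine hM.mono ?_
    rintro x ⟨hx1, hx2⟩
    have : x ∉ O := fun h => hne ⟨x, hx1, h⟩
    simp only [mem_ofPred_eq]
    tauto

end Pool.Agent.T2H96.XP
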