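import Pool.Agent.T2H96.XP.TL
import Pool.Agent.T2H96.XP.KU

/-!
Sequences of analytic functions on connected open subsets of `ℂ^k`, and their analytic continuation.
-/

set_option autoImplicit false

namespace Pool.Agent.T2H96.XP

open Set Filter Topology Metric
open scoped Cardinal
open Pool.Agent.TH735.QM Pool.Agent.TH735.FO Pool.Agent.TH735.BF Pool.Agent.T2H96.XS
open Pool.Agent.T2H96.XE

variable {k : ℕ}

/-- a sequence of analytic functions on a connected open subset of `ℂ^k` -/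
structure PcK (k : ℕ) where
  /-- the domain -/
  U : Set (Pt k)
  /-- the functions -/
  φ : Pt k → ℕ → ℂ
  op : IsOpen U
  conn : IsPreconnected U
  ne : U.Nonempty
  an : ∀ i, AnalyticOnNhd ℂ (fun t => φ t i) U

/-- two pieces overlap, and agree near some point -/
def OvK (p q : PcK k) : Prop := ∃ t, t ∈ p.U ∧ t ∈ q.U ∧ ∀ᶠ s in 𝓝 t, p.φ s = q.φ s

theorem OvK.symm {p q : PcK k} (h : OvK p q) : OvK q p := by
  obtain ⟨t, h1, h2, h3⟩ := h
  exact ⟨t, h2, h1, h3.mono fun s hs => hs.symm⟩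

/-- analytic continuation -/
def EqvK (p q : PcK k) : Prop := Relation.ReflTransGen OvK p q

theorem EqvK.refl (p : PcK k) : EqvK p p := Relation.ReflTransGen.refl

theorem EqvK.trans {p q r : PcK k} (h : EqvK p q) (h' : EqvK q r) : EqvK p r :=
  Relation.ReflTransGen.trans h h'

theorem EqvK.symm {p q : PcK k} (h : EqvK p q) : EqvK q p := by
  induction h with
  | refl => exact EqvK.refl _
  | tail _ h2 ih => exact (Relation.ReflTransGen.single h2.symm).trans ih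

theorem OvK.eqv {p q : PcK k} (h : OvK p q) : EqvK p q := Relation.ReflTransGen.single h

theorem not_meagre_of_nhds {t : Pt k} {s : Set (Pt k)} (h : s ∈ 𝓝 t) : ¬ IsMeagre s := by
  obtain ⟨O, h1, h2, h3⟩ := _root_.mem_nhds_iff.1 h
  intro hs
  exact not_isMeagre_of_isOpen h2 ⟨t, h3⟩ (hs.mono h1)

/-- a property of germs of sequences of analytic functions which, on every connected open set,
holds on a meagre or on a comeagre set -/
structure RegK (Θ : (Pt k → ℕ → ℂ) → Pt k → Prop) : Prop where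
  loc : ∀ (φ φ' : Pt k → ℕ → ℂ) (t : Pt k), (∀ᶠ s in 𝓝 t, φ s = φ' s) → Θ φ t → Θ φ' t
  qm : ∀ p : PcK k, MgOn p.U {t | Θ p.φ t}

/-- the property holds generically -/
def GnK (Θ : (Pt k → ℕ → ℂ) → Pt k → Prop) (p : PcK k) : Prop := IsMeagre (p.U \ {t | Θ p.φ t})

theorem GnK.ov {Θ : (Pt k → ℕ → ℂ) → Pt k → Prop} (hΘ : RegK Θ) {p q : PcK k} (h : OvK p q)
    (hp : GnK Θ p) : GnK Θ q := by
  rcases hΘ.qm q with hq | hq
  · exfalso
    obtain ⟨t, h1, h2, h3⟩ := h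
    have h4 : ∀ᶠ s in 𝓝 t, s ∈ p.U ∧ s ∈ q.U ∧ ∀ᶠ s' in 𝓝 s, p.φ s' = q.φ s' := by
      filter_upwards [p.op.mem_nhds h1, q.op.mem_nhds h2, h3.eventually_nhds] with s a b c
      exact ⟨a, b, c⟩
    refine not_meagre_of_nhds h4 ((hp.union hq).mono ?_)
    rintro s ⟨a, b, c⟩
    by_cases hs' : Θ p.φ s
    · exact Or.inr ⟨b, hΘ.loc _ _ _ c hs'⟩
    · exact Or.inl ⟨a, hs'⟩
  · exact hq

theorem GnK.eqv {Θ : (Pt k → ℕ → ℂ) → Pt k → Prop} (hΘ : RegK Θ) {p q : PcK k} (h : EqvK p q)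
    (hp : GnK Θ p) : GnK Θ q := by
  induction h with
  | refl => exact hp
  | tail _ h2 ih => exact ih.ov hΘ h2

/-- the exceptional points -/
def excK (Θ : (Pt k → ℕ → ℂ) → Pt k → Prop) (p : PcK k) : Set (Pt k) :=
  {t | t ∈ p.U ∧ ¬ (Θ p.φ t ↔ GnK Θ p)}

theorem excK_meagre {Θ : (Pt k → ℕ → ℂ) → Pt k → Prop} (hΘ : RegK Θ) (p : PcK k) :
    IsMeagre (excK Θ p) := by
  by_cases hG : GnK Θ p
  · refine IsMeagre.mono ?_ hG
    rintro t ⟨ht, hn⟩
    refine ⟨ht, fun h => hn ⟨fun _ => hG, fun _ => h⟩⟩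
  · rcases hΘ.qm p with h | h
    · refine IsMeagre.mono ?_ h
      rintro t ⟨ht, hn⟩
      refine ⟨ht, ?_⟩
      by_contra h'
      exact hn ⟨fun h => absurd h h', fun h => absurd h hG⟩
    · exact absurd h hG

theorem goodK_tend {n : ℕ} {P : Pt k × Pt n → Prop} {t : Pt k} {x : Pt n} {φ : Pt k → Pt n}
    (hev : ∀ᶠ q : Pt k × Pt n in 𝓝 (t, x), (P q ↔ q.2 = φ q.1)) {a : Pt k → Pt n}
    (ha : ContinuousAt a t) (hat : a t = x) : ∀ᶠ s in 𝓝 t, (P (s, a s) ↔ a s = φ s) := by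
  have h1 : Tendsto (fun s => (s, a s)) (𝓝 t) (𝓝 (t, x)) := by
    have h2 : Tendsto a (𝓝 t) (𝓝 x) := by
      have := ha.tendsto
      rwa [hat] at this
    exact tendsto_id.prodMk_nhds h2
  exact h1.eventually hev

theorem goodK_unique {n : ℕ} {P : Pt k × Pt n → Prop} {t : Pt k} {x : Pt n}
    (hG : GoodK P (t, x))
    {a b : Pt k → Pt n} (ha : ContinuousAt a t) (hb : ContinuousAt b t) (hat : a t = x)
    (hbt : b t = x)
    (ha0 : ∀ᶠ s in 𝓝 t, P (s, a s)) (hb0 : ∀ᶠ s in 𝓝 t, P (s, b s)) :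
    ∀ᶠ s in 𝓝 t, a s = b s := by
  obtain ⟨φ, -, -, hev⟩ := hG
  filter_upwards [goodK_tend hev ha hat, goodK_tend hev hb hbt, ha0, hb0] with s h3 h4 h5 h6
  exact (h3.1 h5).trans (h4.1 h6).symm

/-- adding functions to a piece -/
def PcK.addN {n : ℕ} (p : PcK k) (L : ℕ) (W : Set (Pt k)) (z : Pt k → Pt n) (hWU : W ⊆ p.U)
    (hW : IsOpen W)
    (hWc : IsPreconnected W) (hne : W.Nonempty) (hz : AnalyticOnNhd ℂ z W) : PcK k where
  U := W
  φ := fun t => upd L (p.φ t) (z t)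
  op := hW
  conn := hWc
  ne := hne
  an := by
    intro i
    by_cases h : L ≤ i ∧ i - L < n
    · have : (fun t => upd L (p.φ t) (z t) i) = fun t => z t ⟨i - L, h.2⟩ := by
        funext t
        unfold upd
        rw [dif_pos h]
      rw [this]
      exact fun t ht => (analyticAt_pi_iff.1 (hz t ht)) _
    · have : (fun t => upd L (p.φ t) (z t) i) = fun t => p.φ t i := by
        funext t
        unfold upd
        rw [dif_neg h]
      rw [this]
      exact (p.an i).mono hWU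

theorem blk_anK {n : ℕ} (L : ℕ) (p : PcK k) : AnalyticOnNhd ℂ (fun t => blk n L (p.φ t)) p.U :=
  fun t ht => analyticAt_pi_iff.2 fun a => p.an (L + a) t ht

/-- guards depending on a sequence of coordinates, in any number of variables -/
structure RegM (n : ℕ) (g : (ℕ → ℂ) → Pt n → Prop) : Prop extends RegN n g where
  gd : ∀ (k : ℕ) (p : PcK k), ∀ t ∈ p.U, ∀ z, g (p.φ t) z →
    GoodK (fun q : Pt k × Pt n => g (p.φ q.1) q.2) (t, z)

/-- `z` is a solution for `φ t` such that the branch through it, added to `φ` at the place `L`, is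
an analytic continuation of `w` -/
def YtK {n : ℕ} (g : (ℕ → ℂ) → Pt n → Prop) (L : ℕ) (w : PcK k) (φ : Pt k → ℕ → ℂ) (t : Pt k)
    (z : Pt n) : Prop :=
  ∃ q : PcK k, EqvK q w ∧ t ∈ q.U ∧ blk n L (q.φ t) = z ∧
    ∀ᶠ s in 𝓝 t, q.φ s = upd L (φ s) (blk n L (q.φ s)) ∧ g (φ s) (blk n L (q.φ s))

/-- there is a solution in the class `w` -/
def EtK {n : ℕ} (g : (ℕ → ℂ) → Pt n → Prop) (L : ℕ) (w : PcK k) (φ : Pt k → ℕ → ℂ)
    (t : Pt k) : Prop :=
  ∃ z, g (φ t) z ∧ YtK g L w φ t z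

theorem isOpen_EtK {n : ℕ} (g : (ℕ → ℂ) → Pt n → Prop) (L : ℕ) (w : PcK k) (p : PcK k) :
    IsOpen (p.U ∩ {t | EtK g L w p.φ t}) := by
  rw [isOpen_iff_mem_nhds]
  rintro t ⟨ht, z, hz, q, hqw, htq, hqz, hev⟩
  filter_upwards [p.op.mem_nhds ht, q.op.mem_nhds htq, hev.eventually_nhds] with s h1 h2 h3
  exact ⟨h1, blk n L (q.φ s), h3.self_of_nhds.2, q, hqw, h2, rfl, h3⟩

/-- along analytic curves, being in the class `w` is a countable or cocountable condition -/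
theorem lqn_YtK {n : ℕ} {g : (ℕ → ℂ) → Pt n → Prop} (hg : RegM n g) (p : PcK k) (L : ℕ)
    (w : PcK k) {V : Set ℂ} {c : ℂ → Pt k} (hc : AnalyticOnNhd ℂ c V) (hV : IsOpen V)
    (hVc : IsPreconnected V) (hcU : ∀ v ∈ V, c v ∈ p.U) :
    LQN V (fun v z => YtK g L w p.φ (c v) z) := by
  intro W hWV hW hWc ζ hζ
  rcases W.eq_empty_or_nonempty with hW0 | hW0
  · left
    rw [hW0, empty_inter]
    exact countable_empty
  have hVne : V.Nonempty := hW0.mono hWV
  -- the piece along the curve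
  set pc : Pc := ⟨V, fun v => p.φ (c v), hV, hVc, hVne, fun i v hv =>
    (p.an i (c v) (hcU v hv)).comp (f := c) (x := v) (hc v hv)⟩ with hpc
  set W₀ : Set ℂ := {v | g (p.φ (c v)) (ζ v)} with hW₀
  have hcur : QmOn W W₀ := hg.cur pc W hWV hW hWc ζ hζ
  set H : Set ℂ := {v | YtK g L w p.φ (c v) (ζ v)} with hH
  have hHW : H ⊆ W₀ := by
    rintro v ⟨q, -, -, hqz, hev⟩
    have := hev.self_of_nhds.2
    rw [hqz] at this
    exact this
  rcases hcur with hcur | hcur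
  · exact Or.inl (hcur.mono (inter_subset_inter_right _ hHW))
  have hcont : ∀ v ∈ W, ContinuousAt c v := fun v hv => (hc v (hWV hv)).continuousAt
  have hcontζ : ∀ v ∈ W, ContinuousAt ζ v := fun v hv => (hζ v hv).continuousAt
  refine tl hW hWc hcur ?_ ?_
  · rintro v hv hv0 ⟨q, hqw, htq, hqz, hev⟩
    obtain ⟨ψ, hψ, hψx, hgr⟩ := hg.gd k p (c v) (hcU v (hWV hv)) (ζ v) hv0
    have hψx' : ψ (c v) = ζ v := hψx
    have e1 := goodK_tend hgr (blk_anK L q (c v) htq).continuousAt hqz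
    have e2 : ∀ᶠ s in 𝓝 (c v), blk n L (q.φ s) = ψ s := by
      filter_upwards [e1, hev] with s h1 h2
      exact h1.1 h2.2
    have e3 : Tendsto (fun v' => (c v', ζ v')) (𝓝 v) (𝓝 (c v, ζ v)) :=
      (hcont v hv).tendsto.prodMk_nhds (hcontζ v hv).tendsto
    filter_upwards [e3.eventually hgr, (hcont v hv).eventually e2,
      (hcont v hv).eventually (q.op.mem_nhds htq), (hcont v hv).eventually hev.eventually_nhds]
      with v' h1 h2 h3 h4 hv0'
    refine ⟨q, hqw, h3, ?_, h4⟩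
    have h5 : ζ v' = ψ (c v') := h1.1 hv0'
    rw [h5, h2]
  · intro v hv hv0 hvH
    obtain ⟨ψ, hψ, hψx, hgr⟩ := hg.gd k p (c v) (hcU v (hWV hv)) (ζ v) hv0
    have hψx' : ψ (c v) = ζ v := hψx
    have hcont0 : Tendsto (fun s => (s, ψ s)) (𝓝 (c v)) (𝓝 (c v, ζ v)) := by
      have h1 : Tendsto ψ (𝓝 (c v)) (𝓝 (ζ v)) := by
        have := hψ.continuousAt.tendsto
        rwa [hψx] at this
      exact tendsto_id.prodMk_nhds h1
    have h1 : ∀ᶠ s in 𝓝 (c v), s ∈ p.U ∧ AnalyticAt ℂ ψ s ∧ g (p.φ s) (ψ s) ∧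
        ∀ᶠ q : Pt k × Pt n in 𝓝 (s, ψ s), (g (p.φ q.1) q.2 ↔ q.2 = ψ q.1) := by
      filter_upwards [p.op.mem_nhds (hcU v (hWV hv)), hψ.eventually_analyticAt,
        hcont0.eventually hgr, hcont0.eventually hgr.eventually_nhds] with s a b c d
      exact ⟨a, b, c.2 rfl, d⟩
    obtain ⟨r, hr, hr'⟩ := Metric.eventually_nhds_iff_ball.1 h1
    set q₀ := PcK.addN p L (ball (c v) r) ψ (fun t ht => (hr' t ht).1) isOpen_ball
      (convex_ball (c v) r).isPreconnected (nonempty_ball.2 hr) (fun t ht => (hr' t ht).2.1)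
      with hq₀
    have hblk : ∀ s, blk n L (q₀.φ s) = ψ s := fun s => blk_upd L (p.φ s) (ψ s)
    have hnot : ¬ EqvK q₀ w := by
      intro hE
      apply hvH
      refine ⟨q₀, hE, mem_ball_self hr, ?_, ?_⟩
      · rw [hblk, hψx']
      · filter_upwards [ball_mem_nhds (c v) hr] with s hs
        rw [hblk]
        exact ⟨rfl, (hr' s hs).2.2.1⟩
    have e3 : Tendsto (fun v' => (c v', ζ v')) (𝓝 v) (𝓝 (c v, ζ v)) :=
      (hcont v hv).tendsto.prodMk_nhds (hcontζ v hv).tendsto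
    filter_upwards [e3.eventually hgr, (hcont v hv).eventually (ball_mem_nhds (c v) hr)]
      with v' h2 h3 hv0'
    rintro ⟨q, hqw, htq, hqz, hev⟩
    apply hnot
    have h4 : ζ v' = ψ (c v') := h2.1 hv0'
    have h5 := goodK_tend (hr' (c v') h3).2.2.2 (blk_anK L q (c v') htq).continuousAt
      (by show blk n L (q.φ (c v')) = ψ (c v'); rw [hqz, h4])
    have hov : OvK q₀ q := by
      refine ⟨c v', h3, htq, ?_⟩
      filter_upwards [hev, h5, isOpen_ball.mem_nhds h3] with s h6 h7 h8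
      have h9 : blk n L (q.φ s) = ψ s := h7.1 h6.2
      rw [h6.1, h9]
      rfl
    exact hov.eqv.trans hqw

end Pool.Agent.T2H96.XP
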