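import Pool.Agent.T2H96.XP.PieceK

/-!
Existence of solutions in a class is a generic property; covers; adding parameters; tests.
-/

set_option autoImplicit false

namespace Pool.Agent.T2H96.XP

open Set Filter Topology Metric
open scoped Cardinal
open Pool.Agent.TH735.QM Pool.Agent.TH735.FO Pool.Agent.TH735.BF Pool.Agent.T2H96.XS
open Pool.Agent.T2H96.XE

variable {k : ℕ}

theorem mem_ball_update {c x : Pt k} {r : ℝ} (hx : x ∈ ball c r) {j : Fin k} {z : ℂ}
    (hz : z ∈ ball (c j) r) : Function.update x j z ∈ ball c r := by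
  have hr : 0 < r := (dist_nonneg).trans_lt hx
  rw [mem_ball, dist_pi_lt_iff hr]
  intro i
  by_cases h : i = j
  · subst h
    rw [Function.update_self]
    exact hz
  · rw [Function.update_of_ne h]
    exact (dist_le_pi_dist x c i).trans_lt hx

theorem update_an (x : Pt k) (j : Fin k) (V : Set ℂ) :
    AnalyticOnNhd ℂ (fun z : ℂ => Function.update x j z) V := by
  intro z _
  refine analyticAt_pi_iff.2 fun i => ?_
  by_cases h : i = j
  · subst h
    simp only [Function.update_self]
    exact analyticAt_id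
  · simp only [Function.update_of_ne h]
    exact analyticAt_const

/-- an open set which meets a polydisc, and whose traces on lines parallel to the axes are countable
or cocountable, is dense in the polydisc -/
theorem dense_ball {c : Pt k} {r : ℝ} {E : Set (Pt k)} (hE : IsOpen E)
    (hl : ∀ x ∈ ball c r, ∀ j, QmOn (ball (c j) r) {z | Function.update x j z ∈ E})
    (hne : (E ∩ ball c r).Nonempty) {v : Pt k} (hv : v ∈ ball c r) {ε : ℝ} (hε : 0 < ε) :
    ∃ x ∈ E ∩ ball c r, dist x v < ε := by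
  have hr : 0 < r := (dist_nonneg).trans_lt hv
  have key : ∀ i : ℕ, i ≤ k → ∃ x ∈ E ∩ ball c r, ∀ l : Fin k, (l : ℕ) < i → dist (x l) (v l) < ε := by
    intro i
    induction i with
    | zero =>
      intro _
      obtain ⟨x, hx⟩ := hne
      exact ⟨x, hx, fun l hl => absurd hl (Nat.not_lt_zero _)⟩
    | succ i ih =>
      intro hik
      obtain ⟨x, ⟨hxE, hxB⟩, hx⟩ := ih (by omega)
      set j : Fin k := ⟨i, by omega⟩ with hj
      have hcont : Continuous fun z : ℂ => Function.update x j z :=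
        continuous_const.update j continuous_id
      have hopen : IsOpen {z : ℂ | Function.update x j z ∈ E} := hE.preimage hcont
      have hvj : v j ∈ ball (c j) r := (dist_le_pi_dist v c j).trans_lt hv
      have hxj : x j ∈ ball (c j) r := (dist_le_pi_dist x c j).trans_lt hxB
      rcases hl x hxB j with h | h
      · exfalso
        have h1 : IsOpen (ball (c j) r ∩ {z : ℂ | Function.update x j z ∈ E}) :=
          isOpen_ball.inter hopen
        refine not_countable_of_open h1 ⟨x j, hxj, ?_⟩ h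
        show Function.update x j (x j) ∈ E
        rw [Function.update_eq_self]
        exact hxE
      · have h1 : IsOpen (ball (c j) r ∩ ball (v j) ε) := isOpen_ball.inter isOpen_ball
        have h2 : ¬ (ball (c j) r ∩ ball (v j) ε).Countable :=
          not_countable_of_open h1 ⟨v j, hvj, mem_ball_self hε⟩
        have h3 : ∃ z ∈ ball (c j) r ∩ ball (v j) ε, Function.update x j z ∈ E := by
          by_contra hcon
          push Not at hcon
          apply h2
          refine h.mono ?_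
          rintro z ⟨hz1, hz2⟩
          exact ⟨hz1, hcon z ⟨hz1, hz2⟩⟩
        obtain ⟨z, ⟨hz1, hz2⟩, hz3⟩ := h3
        refine ⟨Function.update x j z, ⟨hz3, mem_ball_update hxB hz1⟩, ?_⟩
        intro l hl'
        by_cases h : l = j
        · rw [h, Function.update_self]
          exact hz2
        · rw [Function.update_of_ne h]
          apply hx
          have h4 : (l : ℕ) ≠ i := fun h5 => h (Fin.ext h5)
          omega
  obtain ⟨x, hx, h⟩ := key k le_rfl
  exact ⟨x, hx, (dist_pi_lt_iff hε).2 fun l => h l l.2⟩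

/-- an open subset of a connected open set, whose traces on lines parallel to the axes are countable
or cocountable, is empty or dense -/
theorem open_mg {U : Set (Pt k)} (hU : IsOpen U) (hUc : IsPreconnected U) {E : Set (Pt k)}
    (hE : IsOpen (U ∩ E))
    (hl : ∀ (c : Pt k) (r : ℝ), ball c r ⊆ U → ∀ x ∈ ball c r, ∀ j,
      QmOn (ball (c j) r) {z | Function.update x j z ∈ E}) : MgOn U E := by
  rcases (U ∩ E).eq_empty_or_nonempty with h0 | hne
  · left
    rw [h0]
    exact IsMeagre.empty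
  right
  -- the set is dense
  have hl' : ∀ (c : Pt k) (r : ℝ), ball c r ⊆ U → ∀ x ∈ ball c r, ∀ j,
      QmOn (ball (c j) r) {z | Function.update x j z ∈ U ∩ E} := by
    intro c r hc x hx j
    refine (hl c r hc x hx j).congr' ?_
    intro z hz
    exact ⟨fun h => ⟨hc (mem_ball_update hx hz), h⟩, fun h => h.2⟩
  have hopen : IsOpen (U ∩ closure (U ∩ E)) := by
    rw [isOpen_iff_mem_nhds]
    rintro t ⟨ht, htc⟩
    obtain ⟨r, hr, hrU⟩ := Metric.isOpen_iff.1 hU t ht
    have h1 : ((U ∩ E) ∩ ball t r).Nonempty := by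
      obtain ⟨y, hy, hyt⟩ := Metric.mem_closure_iff.1 htc r hr
      refine ⟨y, hy, ?_⟩
      rw [mem_ball, dist_comm]
      exact hyt
    filter_upwards [ball_mem_nhds t hr] with v hv
    refine ⟨hrU hv, Metric.mem_closure_iff.2 fun ε hε => ?_⟩
    obtain ⟨x, hx, hxv⟩ := dense_ball hE (hl' t r hrU) h1 hv hε
    exact ⟨x, hx.1, by rw [dist_comm]; exact hxv⟩
  have hdense : U ⊆ closure (U ∩ E) := by
    by_contra hcon
    rw [not_subset] at hcon
    obtain ⟨t, ht, htc⟩ := hcon
    have h1 : IsOpen (U \ closure (U ∩ E)) := hU.sdiff isClosed_closure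
    have h2 := hUc (U ∩ closure (U ∩ E)) (U \ closure (U ∩ E)) hopen h1 (by
      intro s hs
      by_cases h : s ∈ closure (U ∩ E)
      · exact Or.inl ⟨hs, h⟩
      · exact Or.inr ⟨hs, h⟩) (by
      obtain ⟨y, hy⟩ := hne
      exact ⟨y, hy.1, hy.1, subset_closure hy⟩) ⟨t, ht, ht, htc⟩
    obtain ⟨s, -, hs1, hs2⟩ := h2
    exact hs2.2 hs1.2
  have h1 : IsNowhereDense (U \ (U ∩ E)) := by
    have h2 : U \ (U ∩ E) ⊆ frontier (U ∩ E) := by
      rintro t ⟨ht, ht'⟩
      refine ⟨hdense ht, ?_⟩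
      rw [hE.interior_eq]
      exact ht'
    refine IsNowhereDense.mono h2 ?_
    rw [isClosed_frontier.isNowhereDense_iff, ← frontier_compl]
    exact interior_frontier hE.isClosed_compl
  have h3 : U \ E = U \ (U ∩ E) := by
    ext t
    constructor
    · rintro ⟨h4, h5⟩
      exact ⟨h4, fun h6 => h5 h6.2⟩
    · rintro ⟨h4, h5⟩
      exact ⟨h4, fun h6 => h5 ⟨h4, h6⟩⟩
  rw [h3]
  exact h1.isMeagre

/-- there is a solution in the class `w`: a generic property -/
theorem reg_EtK {n : ℕ} {g : (ℕ → ℂ) → Pt n → Prop} (hg : RegM n g) (L : ℕ) (w : PcK k) :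
    RegK (EtK g L w) where
  loc := by
    rintro φ φ' t hev ⟨z, hz, q, h1, h2, h3, h4⟩
    have h0 : φ t = φ' t := hev.self_of_nhds
    rw [h0] at hz
    refine ⟨z, hz, q, h1, h2, h3, ?_⟩
    filter_upwards [hev, h4] with s h5 h6
    rw [← h5]
    exact h6
  qm := by
    intro p
    refine open_mg p.op p.conn (isOpen_EtK g L w p) ?_
    intro c r hc x hx j
    have hcU : ∀ z ∈ ball (c j) r, Function.update x j z ∈ p.U := fun z hz =>
      hc (mem_ball_update hx hz)
    have hne : (ball (c j) r).Nonempty := ⟨x j, (dist_le_pi_dist x c j).trans_lt hx⟩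
    have han := update_an x j (ball (c j) r)
    set pc : Pc := ⟨ball (c j) r, fun z => p.φ (Function.update x j z), isOpen_ball,
      (convex_ball (c j) r).isPreconnected, hne, fun i z hz =>
      (p.an i _ (hcU z hz)).comp (f := fun z : ℂ => Function.update x j z) (x := z) (han z hz)⟩
      with hpc
    exact hg.cnt pc _ (lqn_YtK hg p L w han isOpen_ball (convex_ball (c j) r).isPreconnected hcU)

/-- countably many pieces cover the solutions -/
theorem coverK {n : ℕ} {g : (ℕ → ℂ) → Pt n → Prop} (hg : RegM n g) (p : PcK k) (L : ℕ) :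
    ∃ Q : Set (PcK k), Q.Countable ∧ (∀ q ∈ Q, q.U ⊆ p.U ∧ ∀ s ∈ q.U,
        q.φ s = upd L (p.φ s) (blk n L (q.φ s)) ∧ g (p.φ s) (blk n L (q.φ s))) ∧
      ∀ t ∈ p.U, ∀ z, g (p.φ t) z → ∃ q ∈ Q, t ∈ q.U ∧ blk n L (q.φ t) = z := by
  set f : Pt k × Pt n → Prop := fun q => g (p.φ q.1) q.2 with hf
  have hloc : ∀ P ∈ {P : Pt k × Pt n | P.1 ∈ p.U ∧ f P}, ∃ q : PcK k, ∃ N ∈ 𝓝 P,
      (q.U ⊆ p.U ∧ ∀ s ∈ q.U,
        q.φ s = upd L (p.φ s) (blk n L (q.φ s)) ∧ g (p.φ s) (blk n L (q.φ s))) ∧
      ∀ P' ∈ N, f P' → P'.1 ∈ q.U ∧ blk n L (q.φ P'.1) = P'.2 := by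
    rintro P ⟨hP, hfP⟩
    obtain ⟨ψ, hψ, hψP, hev⟩ := hg.gd k p P.1 hP P.2 hfP
    have hcont : Tendsto (fun t => (t, ψ t)) (𝓝 P.1) (𝓝 P) := by
      have h1 : Tendsto ψ (𝓝 P.1) (𝓝 P.2) := by
        have := hψ.continuousAt.tendsto
        rwa [hψP] at this
      exact tendsto_id.prodMk_nhds h1
    have h1 : ∀ᶠ t in 𝓝 P.1, t ∈ p.U ∧ AnalyticAt ℂ ψ t ∧ f (t, ψ t) := by
      filter_upwards [p.op.mem_nhds hP, hψ.eventually_analyticAt, hcont.eventually hev]
        with t h1 h2 h3
      exact ⟨h1, h2, h3.2 rfl⟩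
    obtain ⟨r, hr, hr'⟩ := Metric.eventually_nhds_iff_ball.1 h1
    set q := PcK.addN p L (ball P.1 r) ψ (fun t ht => (hr' t ht).1) isOpen_ball
      (convex_ball P.1 r).isPreconnected (nonempty_ball.2 hr) (fun t ht => (hr' t ht).2.1) with hq
    have hqn : ∀ s, blk n L (q.φ s) = ψ s := fun s => blk_upd L (p.φ s) (ψ s)
    refine ⟨q, {P' | P'.1 ∈ ball P.1 r ∧ (f P' ↔ P'.2 = ψ P'.1)}, ?_, ⟨?_, ?_⟩, ?_⟩
    · have h2 : ∀ᶠ q : Pt k × Pt n in 𝓝 P, q.1 ∈ ball P.1 r :=
        (continuousAt_fst (p := P)).eventually (ball_mem_nhds P.1 hr)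
      filter_upwards [h2, hev] with P' h3 h4
      exact ⟨h3, h4⟩
    · exact fun t ht => (hr' t ht).1
    · intro s hs
      rw [hqn]
      exact ⟨rfl, (hr' s hs).2.2⟩
    · rintro P' ⟨h3, h4⟩ h5
      refine ⟨h3, ?_⟩
      rw [hqn]
      exact (h4.1 h5).symm
  have hPc : Nonempty (PcK k) := ⟨p⟩
  choose! q N hN hq1 hq2 using hloc
  obtain ⟨T, hTS, hT, hcov⟩ := TopologicalSpace.countable_cover_nhdsWithin
    (f := N) (s := {P : Pt k × Pt n | P.1 ∈ p.U ∧ f P})
    (fun P hP => mem_nhdsWithin_of_mem_nhds (hN P hP))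
  refine ⟨q '' T, hT.image q, ?_, ?_⟩
  · rintro _ ⟨P, hP, rfl⟩
    exact hq1 P (hTS hP)
  · intro t ht z h0
    have h0' : f (t, z) := h0
    have hmem0 : (t, z) ∈ {P : Pt k × Pt n | P.1 ∈ p.U ∧ f P} := ⟨ht, h0'⟩
    obtain ⟨P, hP, hmem⟩ := mem_iUnion₂.1 (hcov hmem0)
    obtain ⟨h1, h2⟩ := hq2 P (hTS hP) (t, z) hmem h0
    exact ⟨q P, mem_image_of_mem q hP, h1, h2⟩

theorem init_an (W : Set (Pt (k + 1))) :
    AnalyticOnNhd ℂ (fun v : Pt (k + 1) => (fun i : Fin k => v i.castSucc : Pt k)) W := by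
  intro v _
  refine analyticAt_pi_iff.2 fun i => ?_
  exact (ContinuousLinearMap.proj (R := ℂ) (φ := fun _ : Fin (k + 1) => ℂ) i.castSucc).analyticAt v

/-- adding a parameter -/
def PcK.ext (p : PcK k) (L : ℕ) : PcK (k + 1) where
  U := {v | (fun i : Fin k => v i.castSucc) ∈ p.U}
  φ := fun v => Function.update (p.φ fun i : Fin k => v i.castSucc) L (v (Fin.last k))
  op := p.op.preimage (continuous_pi fun i => continuous_apply _)
  conn := by
    have h1 : {v : Pt (k + 1) | (fun i : Fin k => v i.castSucc) ∈ p.U} =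
        (fun q : Pt k × ℂ => (Fin.snoc (α := fun _ => ℂ) q.1 q.2 : Pt (k + 1))) ''
          (p.U ×ˢ Set.univ) := by
      ext v
      simp only [Set.mem_ofPred_eq, mem_image, mem_prod, mem_univ, and_true, Prod.exists]
      constructor
      · intro h
        refine ⟨_, v (Fin.last k), h, ?_⟩
        exact Fin.snoc_init_self (α := fun _ => ℂ) v
      · rintro ⟨a, b, h, rfl⟩
        simpa using h
    rw [h1]
    refine (p.conn.prod isPreconnected_univ).image _ (Continuous.continuousOn ?_)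
    refine continuous_pi fun i => ?_
    refine Fin.lastCases ?_ (fun j => ?_) i
    · simp only [Fin.snoc_last]
      exact continuous_snd
    · simp only [Fin.snoc_castSucc]
      exact (continuous_apply j).comp continuous_fst
  ne := by
    obtain ⟨t, ht⟩ := p.ne
    refine ⟨(Fin.snoc (α := fun _ => ℂ) t 0 : Pt (k + 1)), ?_⟩
    simpa using ht
  an := by
    intro i v hv
    by_cases h : i = L
    · subst h
      simp only [Function.update_self]
      exact (ContinuousLinearMap.proj (R := ℂ) (φ := fun _ : Fin (k + 1) => ℂ)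
        (Fin.last k)).analyticAt v
    · simp only [Function.update_of_ne h]
      exact (p.an i _ hv).comp (f := fun v : Pt (k + 1) => (fun i : Fin k => v i.castSucc : Pt k))
        (x := v) (init_an univ v (mem_univ _))

theorem OvK.ext {p q : PcK k} (h : OvK p q) (L : ℕ) : OvK (p.ext L) (q.ext L) := by
  obtain ⟨t, h1, h2, h3⟩ := h
  have e : (fun i : Fin k => (Fin.snoc (α := fun _ => ℂ) t 0 : Pt (k + 1)) i.castSucc) = t := by
    funext i
    simp
  refine ⟨(Fin.snoc (α := fun _ => ℂ) t 0 : Pt (k + 1)), ?_, ?_, ?_⟩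
  · show (fun i : Fin k => (Fin.snoc (α := fun _ => ℂ) t 0 : Pt (k + 1)) i.castSucc) ∈ p.U
    rw [e]
    exact h1
  · show (fun i : Fin k => (Fin.snoc (α := fun _ => ℂ) t 0 : Pt (k + 1)) i.castSucc) ∈ q.U
    rw [e]
    exact h2
  · have hcont : Tendsto (fun v : Pt (k + 1) => (fun i : Fin k => v i.castSucc))
        (𝓝 (Fin.snoc (α := fun _ => ℂ) t 0 : Pt (k + 1))) (𝓝 t) := by
      have h4 : Continuous fun v : Pt (k + 1) => (fun i : Fin k => v i.castSucc) :=
        continuous_pi fun i => continuous_apply _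
      have h5 := h4.continuousAt (x := (Fin.snoc (α := fun _ => ℂ) t 0 : Pt (k + 1)))
      have h6 : Tendsto (fun v : Pt (k + 1) => (fun i : Fin k => v i.castSucc))
          (𝓝 (Fin.snoc (α := fun _ => ℂ) t 0 : Pt (k + 1)))
          (𝓝 (fun i : Fin k => (Fin.snoc (α := fun _ => ℂ) t 0 : Pt (k + 1)) i.castSucc)) := h5
      rwa [e] at h6
    filter_upwards [hcont.eventually h3] with v hv
    show Function.update (p.φ fun i : Fin k => v i.castSucc) L (v (Fin.last k)) =
      Function.update (q.φ fun i : Fin k => v i.castSucc) L (v (Fin.last k))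
    rw [hv]

theorem EqvK.ext {p q : PcK k} (h : EqvK p q) (L : ℕ) : EqvK (p.ext L) (q.ext L) := by
  induction h with
  | refl => exact EqvK.refl _
  | tail _ h2 ih => exact ih.trans (h2.ext L).eqv

/-- tests -/
theorem reg_testK {T : (ℕ → ℂ) → Prop} (hT : ∀ p : PcK k, MgOn p.U {t | T (p.φ t)}) :
    RegK (k := k) (fun φ t => T (φ t)) where
  loc := by
    intro φ φ' t hev h
    rw [← hev.self_of_nhds]
    exact h
  qm := hT

end Pool.Agent.T2H96.XP
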