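import Pool.Agent.T2H96.XP.Defs

/-!
PACKAGE TL. Sets which are locally constant on a cocountable subset of a connected open
subset of the plane.

Paper proof. `O₁ = {z ∈ W | ∀ᶠ z' in 𝓝 z, z' ∈ W₀ → z' ∈ H}`, `O₂ = {z ∈ W | ∀ᶠ z' in 𝓝 z, z' ∈ W₀ → z' ∉ H}` are
open (`eventually_eventually_nhds`), they cover `W₀`, and they are disjoint (a point of both has a ball
around it without points of `W₀`, but `W \ W₀` is countable; `ball_not_countable` of Pool.Agent.TH735.QM). If `O₂` is empty then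
`W \ H ⊆ W \ W₀` is countable, if `O₁` is empty then `W ∩ H` is empty up to `W \ W₀`. Assume that both are
nonempty. `closure O₁ ∪ closure O₂ ⊇ W` (the points outside are countable, so dense complement), so since
`W` is preconnected there is a point `b ∈ W` in both closures, and a ball `B = ball b r ⊆ W` which
meets both `O₁` and `O₂`. `C = B \ (O₁ ∪ O₂)` is countable. But `B \ C` is connected: by
`OpenPartialHomeomorph.univBall` (or `Homeomorph.unitBall`) the ball is homeomorphic to `ℂ`, and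
`Set.Countable.isConnected_compl_of_one_lt_rank` says that the complement of a countable set in `ℂ` is
connected. So `B \ C` cannot be the disjoint union of the nonempty open sets `B ∩ O₁`, `B ∩ O₂`.
-/

set_option autoImplicit false

namespace Pool.Agent.T2H96.XP

open Set Filter Topology Metric
open Pool.Agent.TH735.QM

/-- a disc minus a countable set is connected -/
theorem ball_diff_preconnected (b : ℂ) {r : ℝ} (hr : 0 < r) {C : Set ℂ} (hC : C.Countable) :
    IsPreconnected (ball b r \ C) := by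
  have h1 : IsPreconnected ((OpenPartialHomeomorph.univBall b r) ⁻¹' C)ᶜ := by
    refine (Set.Countable.isConnected_compl_of_one_lt_rank (by simp) ?_).isPreconnected
    refine hC.preimage_of_injOn ?_
    intro x _ y _ h
    exact (OpenPartialHomeomorph.univBall b r).injOn
      (by rw [OpenPartialHomeomorph.univBall_source]; trivial)
      (by rw [OpenPartialHomeomorph.univBall_source]; trivial) h
  have h2 := h1.image (OpenPartialHomeomorph.univBall b r)
    (OpenPartialHomeomorph.continuous_univBall b r).continuousOn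
  have h3 : (OpenPartialHomeomorph.univBall b r) '' ((OpenPartialHomeomorph.univBall b r) ⁻¹' C)ᶜ =
      ball b r \ C := by
    ext z
    constructor
    · rintro ⟨w, hw, rfl⟩
      refine ⟨?_, hw⟩
      have := (OpenPartialHomeomorph.univBall b r).map_source (x := w)
        (by rw [OpenPartialHomeomorph.univBall_source]; trivial)
      rwa [OpenPartialHomeomorph.univBall_target b hr] at this
    · rintro ⟨hz, hzC⟩
      have hz' : z ∈ (OpenPartialHomeomorph.univBall b r).target := by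
        rwa [OpenPartialHomeomorph.univBall_target b hr]
      refine ⟨(OpenPartialHomeomorph.univBall b r).symm z, ?_,
        (OpenPartialHomeomorph.univBall b r).right_inv hz'⟩
      intro h
      apply hzC
      have h4 : (OpenPartialHomeomorph.univBall b r) ((OpenPartialHomeomorph.univBall b r).symm z) ∈ C := h
      rwa [(OpenPartialHomeomorph.univBall b r).right_inv hz'] at h4
  rwa [h3] at h2

theorem tl {W W₀ H : Set ℂ} (hW : IsOpen W) (hWc : IsPreconnected W) (hc : (W \ W₀).Countable)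
    (h1 : ∀ z ∈ W, z ∈ W₀ → z ∈ H → ∀ᶠ z' in 𝓝 z, z' ∈ W₀ → z' ∈ H)
    (h2 : ∀ z ∈ W, z ∈ W₀ → z ∉ H → ∀ᶠ z' in 𝓝 z, z' ∈ W₀ → z' ∉ H) : QmOn W H := by
  set O₁ : Set ℂ := {z | z ∈ W ∧ ∀ᶠ z' in 𝓝 z, z' ∈ W₀ → z' ∈ H} with hO₁
  set O₂ : Set ℂ := {z | z ∈ W ∧ ∀ᶠ z' in 𝓝 z, z' ∈ W₀ → z' ∉ H} with hO₂
  have ho1 : IsOpen O₁ := by
    rw [isOpen_iff_mem_nhds]
    rintro z ⟨hz, hz'⟩
    filter_upwards [hW.mem_nhds hz, eventually_eventually_nhds.2 hz'] with w hw hw'
    exact ⟨hw, hw'⟩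
  have ho2 : IsOpen O₂ := by
    rw [isOpen_iff_mem_nhds]
    rintro z ⟨hz, hz'⟩
    filter_upwards [hW.mem_nhds hz, eventually_eventually_nhds.2 hz'] with w hw hw'
    exact ⟨hw, hw'⟩
  have hcov : ∀ z ∈ W, z ∈ W₀ → z ∈ O₁ ∪ O₂ := by
    intro z hz hz0
    by_cases hH : z ∈ H
    · exact Or.inl ⟨hz, h1 z hz hz0 hH⟩
    · exact Or.inr ⟨hz, h2 z hz hz0 hH⟩
  have hout : (W \ (O₁ ∪ O₂)).Countable := by
    refine hc.mono ?_
    rintro z ⟨hz, hz'⟩
    exact ⟨hz, fun h => hz' (hcov z hz h)⟩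
  have hdis : ∀ z, z ∈ O₁ → z ∈ O₂ → False := by
    rintro z ⟨hz, ha⟩ ⟨-, hb⟩
    have h3 : ∀ᶠ z' in 𝓝 z, z' ∈ W \ W₀ := by
      filter_upwards [hW.mem_nhds hz, ha, hb] with w hw ha' hb'
      exact ⟨hw, fun h => hb' h (ha' h)⟩
    obtain ⟨r, hr, hsub⟩ := Metric.mem_nhds_iff.1 h3
    exact ball_not_countable z hr (hc.mono hsub)
  rcases O₂.eq_empty_or_nonempty with he | hne2
  · right
    refine hc.mono ?_
    rintro z ⟨hz, hzH⟩
    refine ⟨hz, fun h0 => ?_⟩
    have : z ∈ O₂ := ⟨hz, h2 z hz h0 hzH⟩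
    rw [he] at this
    exact this
  rcases O₁.eq_empty_or_nonempty with he | hne1
  · left
    refine hc.mono ?_
    rintro z ⟨hz, hzH⟩
    refine ⟨hz, fun h0 => ?_⟩
    have : z ∈ O₁ := ⟨hz, h1 z hz h0 hzH⟩
    rw [he] at this
    exact this
  exfalso
  have hcl : W ⊆ closure O₁ ∪ closure O₂ := by
    intro z hz
    rw [← closure_union, Metric.mem_closure_iff]
    intro ε hε
    obtain ⟨r, hr, hsub⟩ := Metric.mem_nhds_iff.1 (hW.mem_nhds hz)
    by_contra hcon
    push Not at hcon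
    refine ball_not_countable z (lt_min hr hε) (hout.mono ?_)
    intro w hw
    rw [mem_ball] at hw
    refine ⟨hsub (mem_ball.2 (lt_of_lt_of_le hw (min_le_left _ _))), fun h => ?_⟩
    have h3 := hcon w h
    rw [dist_comm] at h3
    exact absurd (lt_of_lt_of_le hw (min_le_right _ _)) (not_lt.2 h3)
  have hn1 : (W ∩ closure O₁).Nonempty := by
    obtain ⟨z, hz⟩ := hne1
    exact ⟨z, hz.1, subset_closure hz⟩
  have hn2 : (W ∩ closure O₂).Nonempty := by
    obtain ⟨z, hz⟩ := hne2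
    exact ⟨z, hz.1, subset_closure hz⟩
  obtain ⟨b, hbW, hb1, hb2⟩ := isPreconnected_closed_iff.1 hWc _ _ isClosed_closure isClosed_closure
    hcl hn1 hn2
  obtain ⟨r, hr, hsub⟩ := Metric.mem_nhds_iff.1 (hW.mem_nhds hbW)
  have hC : (ball b r \ (O₁ ∪ O₂)).Countable := by
    refine hout.mono ?_
    rintro z ⟨hz, hz'⟩
    exact ⟨hsub hz, hz'⟩
  have hpre := ball_diff_preconnected b hr hC
  have hmem : ∀ z, z ∈ ball b r \ (ball b r \ (O₁ ∪ O₂)) ↔ z ∈ ball b r ∧ z ∈ O₁ ∪ O₂ := by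
    intro z
    simp only [Set.mem_sdiff, not_and, not_not]
    constructor
    · rintro ⟨ha, hb⟩
      exact ⟨ha, hb ha⟩
    · rintro ⟨ha, hb⟩
      exact ⟨ha, fun _ => hb⟩
  obtain ⟨w1, hw1, hd1⟩ := Metric.mem_closure_iff.1 hb1 r hr
  obtain ⟨w2, hw2, hd2⟩ := Metric.mem_closure_iff.1 hb2 r hr
  have hw1b : w1 ∈ ball b r := by rw [mem_ball, dist_comm]; exact hd1
  have hw2b : w2 ∈ ball b r := by rw [mem_ball, dist_comm]; exact hd2
  obtain ⟨z, hz, hz1, hz2⟩ := hpre O₁ O₂ ho1 ho2 (fun z hz => ((hmem z).1 hz).2)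
    ⟨w1, (hmem w1).2 ⟨hw1b, Or.inl hw1⟩, hw1⟩ ⟨w2, (hmem w2).2 ⟨hw2b, Or.inr hw2⟩, hw2⟩
  exact hdis z hz1 hz2

end Pool.Agent.T2H96.XP
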